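import Mathlib

/-!
# Second differences of smooth functions of compact support
-/

open Filter Topology
open scoped ContDiff

namespace Pool.Agent.W2helper11.MX

noncomputable section

variable {E : Type*} [NormedAddCommGroup E] [NormedSpace ℝ E]

/-- the mixed second derivative -/
def D2 (f : E → ℝ) (a b : E) (x : E) : ℝ := fderiv ℝ (fun y => fderiv ℝ f y a) x b

/-- the mixed second difference with steps `t` -/
def S2 (f : E → ℝ) (a b : E) (t : ℝ) (x : E) : ℝ :=
  f (x + t • a + t • b) - f (x + t • a) - f (x + t • b) + f x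

lemma fd_contDiff {f : E → ℝ} (hf : ContDiff ℝ ∞ f) (a : E) :
    ContDiff ℝ ∞ (fun y => fderiv ℝ f y a) :=
  (hf.fderiv_right (m := ∞) (by simp)).clm_apply contDiff_const

lemma D2_contDiff {f : E → ℝ} (hf : ContDiff ℝ ∞ f) (a b : E) : ContDiff ℝ ∞ (D2 f a b) :=
  fd_contDiff (fd_contDiff hf a) b

lemma fd_supp {f : E → ℝ} (hf : HasCompactSupport f) (a : E) :
    HasCompactSupport (fun y => fderiv ℝ f y a) := hf.fderiv_apply ℝ a

lemma D2_supp {f : E → ℝ} (hf : HasCompactSupport f) (a b : E) : HasCompactSupport (D2 f a b) :=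
  fd_supp (fd_supp hf a) b

lemma D2_neg (f : E → ℝ) (a b : E) (x : E) : D2 f a (-b) x = -D2 f a b x := by
  unfold D2
  rw [map_neg]

/-- mean value theorem for second differences -/
lemma S2_mean {f : E → ℝ} (hf : ContDiff ℝ ∞ f) (a b : E) {t : ℝ} (ht : 0 < t) (x : E) :
    ∃ s s' : ℝ, 0 < s ∧ s < t ∧ 0 < s' ∧ s' < t ∧
      S2 f a b t x = t ^ 2 * D2 f a b (x + s • a + s' • b) := by
  have hd : ∀ y, HasFDerivAt f (fderiv ℝ f y) y := fun y =>
    (hf.differentiable (by simp)).differentiableAt.hasFDerivAt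
  have hd2 : ∀ y, HasFDerivAt (fun y => fderiv ℝ f y a) (fderiv ℝ (fun y => fderiv ℝ f y a) y) y :=
    fun y => ((fd_contDiff hf a).differentiable (by simp)).differentiableAt.hasFDerivAt
  -- first variable
  have hg : ∀ s : ℝ, HasDerivAt (fun s : ℝ => f (x + s • a + t • b) - f (x + s • a))
      (fderiv ℝ f (x + s • a + t • b) a - fderiv ℝ f (x + s • a) a) s := by
    intro s
    have e1 : HasDerivAt (fun s : ℝ => x + s • a) a s := by
      have := ((hasDerivAt_id s).smul_const a).const_add x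
      simpa using this
    have e2 : HasDerivAt (fun s : ℝ => x + s • a + t • b) a s := e1.add_const _
    exact ((hd _).comp_hasDerivAt s e2).sub ((hd _).comp_hasDerivAt s e1)
  obtain ⟨s, hs, hs1⟩ := exists_hasDerivAt_eq_slope (fun s : ℝ => f (x + s • a + t • b) - f (x + s • a))
    (fun s => fderiv ℝ f (x + s • a + t • b) a - fderiv ℝ f (x + s • a) a) ht
    (fun s _ => (hg s).continuousAt.continuousWithinAt) (fun s _ => hg s)
  have hk : ∀ s' : ℝ, HasDerivAt (fun s' : ℝ => fderiv ℝ f (x + s • a + s' • b) a)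
      (D2 f a b (x + s • a + s' • b)) s' := by
    intro s'
    have e1 : HasDerivAt (fun s' : ℝ => x + s • a + s' • b) b s' := by
      have := ((hasDerivAt_id s').smul_const b).const_add (x + s • a)
      simpa using this
    exact (hd2 _).comp_hasDerivAt s' e1
  obtain ⟨s', hs', hs2⟩ := exists_hasDerivAt_eq_slope (fun s' : ℝ => fderiv ℝ f (x + s • a + s' • b) a)
    (fun s' => D2 f a b (x + s • a + s' • b)) ht
    (fun s _ => (hk s).continuousAt.continuousWithinAt) (fun s _ => hk s)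
  refine ⟨s, s', hs.1, hs.2, hs'.1, hs'.2, ?_⟩
  have ht0 : t ≠ 0 := ht.ne'
  simp only [zero_smul, add_zero, sub_zero] at hs1 hs2
  rw [eq_div_iff ht0] at hs1 hs2
  unfold S2
  have : t ^ 2 * D2 f a b (x + s • a + s' • b) = t * (D2 f a b (x + s • a + s' • b) * t) := by ring
  rw [this, hs2, mul_comm t, hs1]
  ring

/-- second differences converge uniformly to the second derivative -/
lemma S2_unif {f : E → ℝ} (hf : ContDiff ℝ ∞ f) (hs : HasCompactSupport f) (a b : E) {ε : ℝ}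
    (hε : 0 < ε) : ∀ᶠ r : ℕ in atTop, ∀ x,
      |(r : ℝ) ^ 2 * S2 f a b (r : ℝ)⁻¹ x - D2 f a b x| ≤ ε := by
  have hu : UniformContinuous (D2 f a b) :=
    (D2_supp hs a b).uniformContinuous_of_continuous (D2_contDiff hf a b).continuous
  obtain ⟨δ, hδ, hδ'⟩ := Metric.uniformContinuous_iff.1 hu ε hε
  have h1 : Tendsto (fun r : ℕ => (r : ℝ)⁻¹ * (‖a‖ + ‖b‖)) atTop (𝓝 (0 * (‖a‖ + ‖b‖))) :=
    tendsto_inv_atTop_nhds_zero_nat.mul_const _
  rw [zero_mul] at h1
  filter_upwards [h1.eventually_lt_const hδ, eventually_gt_atTop 0] with r hr hr0 x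
  have hr0' : (0 : ℝ) < r := by exact_mod_cast hr0
  obtain ⟨s, s', h2, h3, h4, h5, h6⟩ := S2_mean hf a b (inv_pos.2 hr0') x
  have h7 : (r : ℝ) ^ 2 * S2 f a b (r : ℝ)⁻¹ x = D2 f a b (x + s • a + s' • b) := by
    rw [h6]; field_simp
  rw [h7]
  have h8 : dist (x + s • a + s' • b) x < δ := by
    rw [dist_eq_norm]
    have e1 : x + s • a + s' • b - x = s • a + s' • b := by abel
    rw [e1]
    calc ‖s • a + s' • b‖ ≤ ‖s • a‖ + ‖s' • b‖ := norm_add_le _ _
      _ = s * ‖a‖ + s' * ‖b‖ := by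
          rw [norm_smul, norm_smul, Real.norm_of_nonneg h2.le, Real.norm_of_nonneg h4.le]
      _ ≤ (r : ℝ)⁻¹ * ‖a‖ + (r : ℝ)⁻¹ * ‖b‖ := by gcongr
      _ = (r : ℝ)⁻¹ * (‖a‖ + ‖b‖) := by ring
      _ < δ := hr
  have h9 := hδ' h8
  rw [Real.dist_eq] at h9
  exact h9.le

end

end Pool.Agent.W2helper11.MX
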