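import Mathlib
import Pool.Agent.W2helper11.MX.Diff

/-!
# Laplacians of smooth functions of compact support are dense
-/

open Filter Topology MeasureTheory SchwartzMap
open scoped ContDiff FourierTransform Laplacian LineDeriv

namespace Pool.Agent.W2helper11.MX

noncomputable section

variable {d : ℕ}

/-- Euclidean space -/
abbrev Eu (d : ℕ) := EuclideanSpace ℝ (Fin d)

/-- unit vector -/
abbrev ue {d : ℕ} (i : Fin d) : Eu d := EuclideanSpace.single i 1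

/-- the multiplier of the resolvent -/
def rm (s : ℝ) (x : Eu d) : ℝ := (s ^ 2 + (2 * Real.pi) ^ 2 * ‖x‖ ^ 2)⁻¹

lemma rm_growth {s : ℝ} (hs : 0 < s) : (rm s : Eu d → ℝ).HasTemperateGrowth := by
  have h1 : (fun x : Eu d => (1 + ‖(2 * Real.pi / s) • x‖ ^ 2) ^ (-1 : ℝ)).HasTemperateGrowth := by
    have h2 := Function.hasTemperateGrowth_one_add_norm_sq_rpow (Eu d) (-1)
    have h3 : (fun x : Eu d => (2 * Real.pi / s) • x).HasTemperateGrowth :=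
      ((2 * Real.pi / s) • ContinuousLinearMap.id ℝ (Eu d)).hasTemperateGrowth
    exact h2.comp h3
  have h2 : (rm s : Eu d → ℝ) = fun x => (s ^ 2)⁻¹ * (1 + ‖(2 * Real.pi / s) • x‖ ^ 2) ^ (-1 : ℝ) := by
    funext x
    unfold rm
    rw [Real.rpow_neg_one, ← mul_inv, norm_smul, Real.norm_of_nonneg (by positivity)]
    congr 1
    field_simp
  rw [h2]
  exact (Function.HasTemperateGrowth.const _).mul h1

/-- the resolvent of the Laplacian -/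
def res (s : ℝ) (Φ : 𝓢(Eu d, ℂ)) : 𝓢(Eu d, ℂ) := fourierMultiplierCLM ℂ (rm s) Φ

lemma res_fourier {s : ℝ} (hs : 0 < s) (Φ : 𝓢(Eu d, ℂ)) (ξ : Eu d) :
    𝓕 (res s Φ) ξ = (rm s ξ : ℂ) * 𝓕 Φ ξ := by
  unfold res
  rw [fourierMultiplierCLM_apply, FourierTransform.fourier_fourierInv_eq,
    smulLeftCLM_apply_apply (rm_growth hs)]
  simp

lemma lap_fourier (v : 𝓢(Eu d, ℂ)) (ξ : Eu d) :
    𝓕 (Δ v) ξ = -((2 * Real.pi) ^ 2 * ‖ξ‖ ^ 2 : ℝ) * 𝓕 v ξ := by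
  rw [laplacian_eq_fourierMultiplierCLM, FourierTransform.fourier_smul, fourierMultiplierCLM_apply,
    FourierTransform.fourier_fourierInv_eq]
  rw [_root_.smul_apply, smulLeftCLM_apply_apply (by fun_prop)]
  simp
  ring

lemma res_eq {s : ℝ} (hs : 0 < s) (Φ : 𝓢(Eu d, ℂ)) : (s ^ 2 : ℝ) • res s Φ - Δ (res s Φ) = Φ := by
  have h1 : 𝓕 ((s ^ 2 : ℝ) • res s Φ - Δ (res s Φ)) = 𝓕 Φ := by
    ext ξ
    rw [sub_eq_add_neg, FourierTransform.fourier_add, FourierTransform.fourier_neg,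
      FourierTransform.fourier_smul, _root_.add_apply, _root_.neg_apply,
      _root_.smul_apply, lap_fourier, res_fourier hs]
    have h2 : (s ^ 2 + (2 * Real.pi) ^ 2 * ‖ξ‖ ^ 2 : ℝ) * rm s ξ = 1 := by
      unfold rm
      exact mul_inv_cancel₀ (by positivity)
    have h3 : ((s : ℂ) ^ 2 + (2 * Real.pi) ^ 2 * ‖ξ‖ ^ 2) * rm s ξ = 1 := by exact_mod_cast h2
    simp only [Complex.real_smul]
    push_cast
    linear_combination (𝓕 Φ ξ) * h3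
  have h2 := congrArg (fun f : 𝓢(Eu d, ℂ) => 𝓕⁻ f) h1
  simpa using h2

/-- the resolvent tends to zero -/
lemma res_small (hd : 1 ≤ d) (Φ : 𝓢(Eu d, ℂ)) : Tendsto (fun k : ℕ =>
    ∫ x, ‖((((k : ℝ) + 1)⁻¹ ^ 2 : ℝ) • res ((k : ℝ) + 1)⁻¹ Φ) x‖ ^ 2) atTop (𝓝 0) := by
  have h0 : ∀ k : ℕ, ∫ x, ‖((((k : ℝ) + 1)⁻¹ ^ 2 : ℝ) • res ((k : ℝ) + 1)⁻¹ Φ) x‖ ^ 2 =
      ∫ ξ, (((k : ℝ) + 1)⁻¹ ^ 2 * rm ((k : ℝ) + 1)⁻¹ ξ) ^ 2 * ‖𝓕 Φ ξ‖ ^ 2 := by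
    intro k
    rw [← integral_norm_sq_fourier]
    refine integral_congr_ae (Filter.Eventually.of_forall fun ξ => ?_)
    simp only
    rw [FourierTransform.fourier_smul, _root_.smul_apply, res_fourier (by positivity)]
    rw [norm_smul, norm_mul, Complex.norm_real, mul_pow, mul_pow, mul_pow]
    simp only [Real.norm_eq_abs, sq_abs]
    ring
  simp only [h0]
  have h1 : ∫ ξ : Eu d, (0 : ℝ) = 0 := by simp
  rw [← h1]
  have hb : ∀ (k : ℕ) (ξ : Eu d), 0 ≤ ((k : ℝ) + 1)⁻¹ ^ 2 * rm ((k : ℝ) + 1)⁻¹ ξ ∧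
      ((k : ℝ) + 1)⁻¹ ^ 2 * rm ((k : ℝ) + 1)⁻¹ ξ ≤ 1 := by
    intro k ξ
    unfold rm
    constructor
    · positivity
    · rw [← div_eq_mul_inv, div_le_one (by positivity)]
      have : 0 ≤ (2 * Real.pi) ^ 2 * ‖ξ‖ ^ 2 := by positivity
      linarith
  have hint : Integrable fun ξ : Eu d => ‖𝓕 Φ ξ‖ ^ 2 := by
    have := (𝓕 Φ).memLp 2 volume
    exact this.integrable_norm_pow (by norm_num)
  have hrc : ∀ k : ℕ, Continuous (fun ξ : Eu d => rm ((k : ℝ) + 1)⁻¹ ξ) := fun k =>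
    (rm_growth (by positivity)).1.continuous
  refine tendsto_integral_of_dominated_convergence (fun ξ => ‖𝓕 Φ ξ‖ ^ 2) (fun k => ?_) hint
    (fun k => Filter.Eventually.of_forall fun ξ => ?_) ?_
  · have h2 : Continuous fun ξ : Eu d =>
        (((k : ℝ) + 1)⁻¹ ^ 2 * rm ((k : ℝ) + 1)⁻¹ ξ) ^ 2 * ‖𝓕 Φ ξ‖ ^ 2 :=
      ((continuous_const.mul (hrc k)).pow 2).mul ((𝓕 Φ).continuous.norm.pow 2)
    exact h2.aestronglyMeasurable
  · obtain ⟨h2, h3⟩ := hb k ξ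
    rw [Real.norm_of_nonneg (by positivity)]
    calc _ ≤ 1 ^ 2 * ‖𝓕 Φ ξ‖ ^ 2 := by gcongr
      _ = _ := by ring
  · have : Nonempty (Fin d) := ⟨⟨0, hd⟩⟩
    have hne : ∀ᵐ ξ : Eu d, ξ ≠ 0 := by
      have : (volume : Measure (Eu d)) {0} = 0 := measure_singleton 0
      exact measure_eq_zero_iff_ae_notMem.1 this
    filter_upwards [hne] with ξ hξ
    have hξ0 : 0 < ‖ξ‖ := norm_pos_iff.2 hξ
    have h2 : Tendsto (fun k : ℕ => ((k : ℝ) + 1)⁻¹ ^ 2) atTop (𝓝 (0 ^ 2)) :=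
      (tendsto_inv_atTop_zero.comp (tendsto_natCast_atTop_atTop.atTop_add tendsto_const_nhds)).pow 2
    have h3 : Tendsto (fun k : ℕ => rm ((k : ℝ) + 1)⁻¹ ξ) atTop
        (𝓝 ((0 ^ 2 + (2 * Real.pi) ^ 2 * ‖ξ‖ ^ 2)⁻¹)) := by
      unfold rm
      exact (h2.add_const _).inv₀ (by positivity)
    have h4 := ((h2.mul h3).pow 2).mul_const (‖𝓕 Φ ξ‖ ^ 2)
    simpa using h4

/-- the real part -/
def rp (v : 𝓢(Eu d, ℂ)) : 𝓢(Eu d, ℝ) := v.postcompCLM Complex.reCLM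

lemma rp_apply (v : 𝓢(Eu d, ℂ)) (x : Eu d) : rp v x = (v x).re := rfl

lemma fd_rp (v : 𝓢(Eu d, ℂ)) (a x : Eu d) :
    fderiv ℝ (fun y => (v y).re) x a = ((∂_{a} v : 𝓢(Eu d, ℂ)) x).re := by
  rw [lineDerivOp_apply_eq_fderiv]
  have h1 : HasFDerivAt (fun y => (v y).re) (Complex.reCLM.comp (fderiv ℝ v x)) x :=
    Complex.reCLM.hasFDerivAt.comp x (v.hasFDerivAt x)
  rw [h1.fderiv]
  rfl

lemma D2_rp (v : 𝓢(Eu d, ℂ)) (a b x : Eu d) :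
    D2 (rp v) a b x = ((∂_{b} (∂_{a} v) : 𝓢(Eu d, ℂ)) x).re := by
  unfold D2
  have h1 : (fun y => fderiv ℝ (rp v) y a) = fun y => ((∂_{a} v : 𝓢(Eu d, ℂ)) y).re := by
    funext y
    exact fd_rp v a y
  rw [h1, fd_rp]

lemma lap_rp (v : 𝓢(Eu d, ℂ)) (x : Eu d) :
    ∑ i, D2 (rp v) (ue i) (ue i) x = ((Δ v : 𝓢(Eu d, ℂ)) x).re := by
  rw [laplacian_eq_sum (EuclideanSpace.basisFun (Fin d) ℝ)]
  simp only [D2_rp, _root_.sum_apply, Complex.re_sum, EuclideanSpace.basisFun_apply]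

/-- Schwartz solutions of the Poisson equation up to a small error -/
lemma dens_schwartz (hd : 1 ≤ d) (Φ : 𝓢(Eu d, ℂ)) {η : ℝ} (hη : 0 < η) : ∃ w : 𝓢(Eu d, ℝ),
    ∫ x, ((Φ x).re + ∑ i, D2 w (ue i) (ue i) x) ^ 2 < η := by
  obtain ⟨k, hk⟩ := ((res_small hd Φ).eventually_lt_const hη).exists
  refine ⟨rp (res ((k : ℝ) + 1)⁻¹ Φ), lt_of_le_of_lt ?_ hk⟩
  have h1 : ∀ x, (Φ x).re + ∑ i, D2 (rp (res ((k : ℝ) + 1)⁻¹ Φ)) (ue i) (ue i) x =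
      (((((k : ℝ) + 1)⁻¹ ^ 2 : ℝ) • res ((k : ℝ) + 1)⁻¹ Φ) x).re := by
    intro x
    rw [lap_rp]
    have h2 := congrArg (fun f : 𝓢(Eu d, ℂ) => (f x).re)
      (res_eq (d := d) (s := ((k : ℝ) + 1)⁻¹) (by positivity) Φ)
    simp only [_root_.sub_apply, Complex.sub_re] at h2
    linarith
  simp only [h1]
  have hint : Integrable fun x : Eu d =>
      ‖((((k : ℝ) + 1)⁻¹ ^ 2 : ℝ) • res ((k : ℝ) + 1)⁻¹ Φ) x‖ ^ 2 := by
    have := ((((k : ℝ) + 1)⁻¹ ^ 2 : ℝ) • res ((k : ℝ) + 1)⁻¹ Φ).memLp 2 volume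
    exact this.integrable_norm_pow (by norm_num)
  refine integral_mono_of_nonneg (Filter.Eventually.of_forall fun x => sq_nonneg _) hint
    (Filter.Eventually.of_forall fun x => ?_)
  simp only
  rw [← sq_abs (Complex.re _)]
  gcongr
  exact Complex.abs_re_le_norm _

end

end Pool.Agent.W2helper11.MX
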