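import Mathlib
import Pool.Agent.W2helper11.MX.Dens

/-!
# Cut off of Schwartz functions
-/

open Filter Topology MeasureTheory SchwartzMap
open scoped ContDiff FourierTransform Laplacian LineDeriv

namespace Pool.Agent.W2helper11.MX

noncomputable section

variable {d : ℕ}

section product

variable {E : Type*} [NormedAddCommGroup E] [NormedSpace ℝ E]

lemma fd_mul {f g : E → ℝ} (hf : ContDiff ℝ ∞ f) (hg : ContDiff ℝ ∞ g) (a x : E) :
    fderiv ℝ (fun y => f y * g y) x a = f x * fderiv ℝ g x a + g x * fderiv ℝ f x a := by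
  have h1 := (hf.differentiable (by simp)).differentiableAt (x := x)
  have h2 := (hg.differentiable (by simp)).differentiableAt (x := x)
  rw [fderiv_fun_mul h1 h2]
  simp

lemma D2_mul {f g : E → ℝ} (hf : ContDiff ℝ ∞ f) (hg : ContDiff ℝ ∞ g) (a x : E) :
    D2 (fun y => f y * g y) a a x =
      f x * D2 g a a x + 2 * (fderiv ℝ f x a * fderiv ℝ g x a) + g x * D2 f a a x := by
  have h1 : D2 (fun y => f y * g y) a a x =
      fderiv ℝ (fun y => f y * fderiv ℝ g y a + g y * fderiv ℝ f y a) x a := by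
    unfold D2
    congr 2
    funext y
    exact fd_mul hf hg a y
  have e1 : DifferentiableAt ℝ (fun y => f y * fderiv ℝ g y a) x :=
    ((hf.mul (fd_contDiff hg a)).differentiable (by simp)).differentiableAt
  have e2 : DifferentiableAt ℝ (fun y => g y * fderiv ℝ f y a) x :=
    ((hg.mul (fd_contDiff hf a)).differentiable (by simp)).differentiableAt
  rw [h1, fderiv_fun_add e1 e2, _root_.add_apply, fd_mul hf (fd_contDiff hg a),
    fd_mul hg (fd_contDiff hf a)]
  unfold D2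
  ring

lemma fd_scale {f : E → ℝ} (hf : ContDiff ℝ ∞ f) (t : ℝ) (a x : E) :
    fderiv ℝ (fun y => f (t • y)) x a = t * fderiv ℝ f (t • x) a := by
  have h1 : HasFDerivAt f (fderiv ℝ f (t • x)) (t • x) :=
    ((hf.differentiable (by simp)).differentiableAt).hasFDerivAt
  have h2 : HasFDerivAt (fun y : E => t • y) (t • ContinuousLinearMap.id ℝ E) x :=
    (hasFDerivAt_id x).const_smul t
  have h3 : HasFDerivAt (fun y => f (t • y)) ((fderiv ℝ f (t • x)).comp
    (t • ContinuousLinearMap.id ℝ E)) x := h1.comp x h2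
  rw [h3.fderiv]
  simp

lemma D2_scale {f : E → ℝ} (hf : ContDiff ℝ ∞ f) (t : ℝ) (a b x : E) :
    D2 (fun y => f (t • y)) a b x = t ^ 2 * D2 f a b (t • x) := by
  unfold D2
  have h1 : (fun y => fderiv ℝ (fun y => f (t • y)) y a) =
      fun y => t * (fun z => fderiv ℝ f z a) (t • y) := by
    funext y
    exact fd_scale hf t a y
  have h3 : DifferentiableAt ℝ (fun y => (fun z => fderiv ℝ f z a) (t • y)) x :=
    (((fd_contDiff hf a).comp (contDiff_const_smul t)).differentiable (by simp)).differentiableAt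
  rw [h1, fderiv_const_mul h3, _root_.smul_apply, fd_scale (fd_contDiff hf a)]
  simp only [smul_eq_mul]
  ring

end product

lemma bdd_of {f : Eu d → ℝ} (hf : Continuous f) (hs : HasCompactSupport f) :
    ∃ M : ℝ, 0 ≤ M ∧ ∀ x, |f x| ≤ M := by
  obtain ⟨M, hM⟩ := hs.exists_bound_of_continuous hf
  exact ⟨M, (norm_nonneg _).trans (hM 0), fun x => hM x⟩

/-- the cut off function -/
def chi (d : ℕ) : ContDiffBump (0 : Eu d) := ⟨1, 2, one_pos, one_lt_two⟩

/-- the cut off at the radius `k + 1` -/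
def chk (k : ℕ) (x : Eu d) : ℝ := chi d (((k : ℝ) + 1)⁻¹ • x)

lemma chi_smooth : ContDiff ℝ ∞ (chi d : Eu d → ℝ) := (chi d).contDiff

lemma chk_smooth (k : ℕ) : ContDiff ℝ ∞ (chk k : Eu d → ℝ) :=
  chi_smooth.comp (contDiff_const_smul _)

lemma chk_supp (k : ℕ) : HasCompactSupport (chk k : Eu d → ℝ) := by
  have h1 : HasCompactSupport (chi d : Eu d → ℝ) := (chi d).hasCompactSupport
  exact h1.comp_smul (by positivity : (((k : ℝ) + 1)⁻¹) ≠ 0)

lemma chk_near {x : Eu d} {k : ℕ} (h : ‖x‖ < k + 1) : (chk k : Eu d → ℝ) =ᶠ[𝓝 x] fun _ => 1 := by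
  have h1 : ∀ᶠ y in 𝓝 x, ‖y‖ < (k : ℝ) + 1 := continuous_norm.continuousAt.eventually_lt_const h
  filter_upwards [h1] with y hy
  unfold chk
  refine (chi d).one_of_mem_closedBall ?_
  rw [mem_closedBall_zero_iff, norm_smul, Real.norm_of_nonneg (by positivity)]
  have : ((k : ℝ) + 1)⁻¹ * ‖y‖ ≤ 1 := by
    rw [inv_mul_le_iff₀ (by positivity)]; linarith
  exact this

lemma cut_lim {φ : Eu d → ℝ} (hφ : Continuous φ) (hs : HasCompactSupport φ) (w : 𝓢(Eu d, ℝ)) :
    Tendsto (fun k : ℕ => ∫ x, (φ x + ∑ i, D2 (fun y => chk k y * w y) (ue i) (ue i) x) ^ 2)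
      atTop (𝓝 (∫ x, (φ x + ∑ i, D2 w (ue i) (ue i) x) ^ 2)) := by
  have hw : ContDiff ℝ ∞ (w : Eu d → ℝ) := w.smooth ⊤
  obtain ⟨M, hM⟩ : ∃ M : Fin d → ℝ, ∀ i, 0 ≤ M i ∧ (∀ x : Eu d, |fderiv ℝ (chi d) x (ue i)| ≤ M i) ∧
      ∀ x : Eu d, |D2 (chi d) (ue i) (ue i) x| ≤ M i := by
    have h1 : ∀ i : Fin d, ∃ M : ℝ, 0 ≤ M ∧ (∀ x : Eu d, |fderiv ℝ (chi d) x (ue i)| ≤ M) ∧
        ∀ x : Eu d, |D2 (chi d) (ue i) (ue i) x| ≤ M := by
      intro i
      obtain ⟨M1, h1, h2⟩ := bdd_of (d := d) (fd_contDiff chi_smooth (ue i)).continuous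
        (fd_supp (chi d).hasCompactSupport (ue i))
      obtain ⟨M2, h3, h4⟩ := bdd_of (d := d) (D2_contDiff chi_smooth (ue i) (ue i)).continuous
        (D2_supp (chi d).hasCompactSupport (ue i) (ue i))
      exact ⟨M1 + M2, by positivity, fun x => (h2 x).trans (by linarith),
        fun x => (h4 x).trans (by linarith)⟩
    choose M hM using h1
    exact ⟨M, hM⟩
  have hsc : ∀ k : ℕ, 0 < ((k : ℝ) + 1)⁻¹ ∧ ((k : ℝ) + 1)⁻¹ ≤ 1 := fun k =>
    ⟨by positivity, inv_le_one_of_one_le₀ (by have : (0 : ℝ) ≤ k := Nat.cast_nonneg k; linarith)⟩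
  have hf1 : ∀ (k : ℕ) (i : Fin d) (x : Eu d), |fderiv ℝ (chk k) x (ue i)| ≤ M i := by
    intro k i x
    have e1 : fderiv ℝ (chk k) x (ue i) =
        ((k : ℝ) + 1)⁻¹ * fderiv ℝ (chi d) (((k : ℝ) + 1)⁻¹ • x) (ue i) :=
      fd_scale chi_smooth _ _ _
    rw [e1, abs_mul, abs_of_pos (hsc k).1]
    calc _ ≤ 1 * M i := mul_le_mul (hsc k).2 ((hM i).2.1 _) (abs_nonneg _) zero_le_one
      _ = M i := one_mul _
  have hf2 : ∀ (k : ℕ) (i : Fin d) (x : Eu d), |D2 (chk k) (ue i) (ue i) x| ≤ M i := by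
    intro k i x
    have e1 : D2 (chk k) (ue i) (ue i) x =
        ((k : ℝ) + 1)⁻¹ ^ 2 * D2 (chi d) (ue i) (ue i) (((k : ℝ) + 1)⁻¹ • x) :=
      D2_scale chi_smooth _ _ _ _
    rw [e1, abs_mul, abs_of_pos (pow_pos (hsc k).1 2)]
    calc _ ≤ 1 * M i := mul_le_mul (pow_le_one₀ (hsc k).1.le (hsc k).2) ((hM i).2.2 _)
          (abs_nonneg _) zero_le_one
      _ = M i := one_mul _
  have hf0 : ∀ (k : ℕ) (x : Eu d), |chk k x| ≤ 1 := by
    intro k x
    unfold chk
    rw [abs_of_nonneg (chi d).nonneg]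
    exact (chi d).le_one
  -- the dominating function
  obtain ⟨b, hb⟩ : ∃ b : Eu d → ℝ, b = fun x => |φ x| + ∑ i, (|D2 w (ue i) (ue i) x| +
    2 * M i * |fderiv ℝ w x (ue i)| + M i * |w x|) := ⟨_, rfl⟩
  have hb2 : MemLp b 2 volume := by
    have m1 : MemLp φ 2 volume := hφ.memLp_of_hasCompactSupport hs
    have m2 : ∀ i : Fin d, MemLp (fun x => D2 w (ue i) (ue i) x) 2 volume := fun i => by
      have := (∂_{ue i} (∂_{ue i} w) : 𝓢(Eu d, ℝ)).memLp 2 volume
      exact this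
    have m3 : ∀ i : Fin d, MemLp (fun x => fderiv ℝ w x (ue i)) 2 volume := fun i => by
      have := (∂_{ue i} w : 𝓢(Eu d, ℝ)).memLp 2 volume
      exact this
    have m4 : MemLp (fun x => w x) 2 volume := w.memLp 2 volume
    rw [hb]
    refine m1.abs.add (memLp_finsetSum _ fun i _ => ?_)
    exact ((m2 i).abs.add ((m3 i).abs.const_mul _)).add (m4.abs.const_mul _)
  have hbi : Integrable (fun x => b x ^ 2) := hb2.integrable_sq
  refine tendsto_integral_of_dominated_convergence (fun x => b x ^ 2) (fun k => ?_) hbi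
    (fun k => Filter.Eventually.of_forall fun x => ?_) (Filter.Eventually.of_forall fun x => ?_)
  · have h1 : Continuous fun x => (φ x + ∑ i, D2 (fun y => chk k y * w y) (ue i) (ue i) x) ^ 2 :=
      (hφ.add (continuous_finsetSum _ fun i _ =>
        (D2_contDiff ((chk_smooth k).mul hw) _ _).continuous)).pow 2
    exact h1.aestronglyMeasurable
  · rw [Real.norm_of_nonneg (sq_nonneg _)]
    refine sq_le_sq' ?_ ?_ <;> [skip; skip]
    all_goals
      have h1 : |φ x + ∑ i, D2 (fun y => chk k y * w y) (ue i) (ue i) x| ≤ b x := by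
        rw [hb]
        refine (abs_add_le _ _).trans (add_le_add le_rfl ((Finset.abs_sum_le_sum_abs _ _).trans
          (Finset.sum_le_sum fun i _ => ?_)))
        rw [D2_mul (chk_smooth k) hw]
        refine (abs_add_le _ _).trans (add_le_add ((abs_add_le _ _).trans (add_le_add ?_ ?_)) ?_)
        · rw [abs_mul]
          calc _ ≤ 1 * |D2 w (ue i) (ue i) x| :=
                mul_le_mul_of_nonneg_right (hf0 k x) (abs_nonneg _)
            _ = _ := one_mul _
        · rw [abs_mul, abs_mul, abs_two, ← mul_assoc]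
          exact mul_le_mul_of_nonneg_right (mul_le_mul_of_nonneg_left (hf1 k i x) (by norm_num))
            (abs_nonneg _)
        · rw [abs_mul, mul_comm]
          exact mul_le_mul_of_nonneg_right (hf2 k i x) (abs_nonneg _)
      obtain ⟨h2, h3⟩ := abs_le.1 h1
      linarith
  · refine tendsto_nhds_of_eventually_eq ?_
    obtain ⟨K, hK⟩ := exists_nat_gt ‖x‖
    filter_upwards [eventually_ge_atTop K] with k hk
    have h1 : ‖x‖ < (k : ℝ) + 1 := by
      have : (K : ℝ) ≤ k := by exact_mod_cast hk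
      linarith
    have h2 : ∀ i : Fin d, D2 (fun y => chk k y * w y) (ue i) (ue i) x = D2 w (ue i) (ue i) x := by
      intro i
      have h3 : (fun y => chk k y * w y) =ᶠ[𝓝 x] w := by
        filter_upwards [chk_near h1] with y hy
        rw [hy, one_mul]
      have h4 : (fun y => fderiv ℝ (fun y => chk k y * w y) y (ue i)) =ᶠ[𝓝 x]
          fun y => fderiv ℝ w y (ue i) := by
        filter_upwards [h3.fderiv (𝕜 := ℝ)] with y hy
        rw [hy]
      unfold D2
      rw [h4.fderiv_eq]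
    simp only [h2]

/-- The Laplacians of smooth functions of compact support are dense. -/
theorem dens (hd : 1 ≤ d) {φ : Eu d → ℝ} (hφ : ContDiff ℝ ∞ φ) (hs : HasCompactSupport φ) {η : ℝ}
    (hη : 0 < η) : ∃ u : Eu d → ℝ, ContDiff ℝ ∞ u ∧ HasCompactSupport u ∧
      ∫ x, (φ x + ∑ i, D2 u (ue i) (ue i) x) ^ 2 < η := by
  have h1 : HasCompactSupport fun x => (φ x : ℂ) := hs.comp_left (g := fun t : ℝ => (t : ℂ)) rfl
  have h2 : ContDiff ℝ ∞ fun x => (φ x : ℂ) := Complex.ofRealCLM.contDiff.comp hφ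
  obtain ⟨w, hw⟩ := dens_schwartz hd (h1.toSchwartzMap h2) hη
  have h3 : ∀ x, ((h1.toSchwartzMap h2) x).re = φ x := fun x => rfl
  simp only [h3] at hw
  obtain ⟨k, hk⟩ := ((cut_lim hφ.continuous hs w).eventually_lt_const hw).exists
  exact ⟨fun y => chk k y * w y, (chk_smooth k).mul (w.smooth ⊤), (chk_supp k).mul_right, hk⟩

end

end Pool.Agent.W2helper11.MX
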