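import Mathlib
import Pool.Agent.W2helper11.MX.Dens

/-!
# The variance of the free Maxwell field
-/

open Filter Topology MeasureTheory SchwartzMap
open scoped ContDiff FourierTransform Laplacian LineDeriv

namespace Pool.Agent.W2helper11.MX

noncomputable section

variable {d : ℕ}

/-! ### square norms -/

lemma l2_norm {X V : Type*} [MeasurableSpace X] {μ : Measure X} [NormedAddCommGroup V]
    {f : X → V} (hf : MemLp f 2 μ) : (eLpNorm f 2 μ).toReal = Real.sqrt (∫ x, ‖f x‖ ^ 2 ∂μ) := by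
  rw [hf.eLpNorm_eq_integral_rpow_norm (by norm_num) (by norm_num), ENNReal.toReal_ofReal
    (by positivity)]
  simp only [ENNReal.toReal_ofNat, Real.rpow_ofNat, Real.sqrt_eq_rpow, one_div]

lemma l2_tri {X V : Type*} [MeasurableSpace X] {μ : Measure X} [NormedAddCommGroup V]
    {f g : X → V} (hf : MemLp f 2 μ) (hg : MemLp g 2 μ) :
    |Real.sqrt (∫ x, ‖f x‖ ^ 2 ∂μ) - Real.sqrt (∫ x, ‖g x‖ ^ 2 ∂μ)| ≤
      Real.sqrt (∫ x, ‖f x - g x‖ ^ 2 ∂μ) := by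
  have hfg := hf.sub hg
  have h3 : Real.sqrt (∫ x, ‖f x - g x‖ ^ 2 ∂μ) = (eLpNorm (f - g) 2 μ).toReal :=
    (l2_norm hfg).symm
  rw [← l2_norm hf, ← l2_norm hg, h3]
  have e1 : eLpNorm f 2 μ ≤ eLpNorm (f - g) 2 μ + eLpNorm g 2 μ := by
    have := eLpNorm_add_le hfg.1 hg.1 (p := 2) (by norm_num)
    rwa [sub_add_cancel] at this
  have e2 : eLpNorm g 2 μ ≤ eLpNorm (f - g) 2 μ + eLpNorm f 2 μ := by
    have := eLpNorm_add_le (hg.sub hf).1 hf.1 (p := 2) (by norm_num)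
    rw [sub_add_cancel] at this
    rwa [eLpNorm_sub_comm] at this
  have f1 := ENNReal.toReal_mono (ENNReal.add_ne_top.2 ⟨hfg.2.ne, hg.2.ne⟩) e1
  have f2 := ENNReal.toReal_mono (ENNReal.add_ne_top.2 ⟨hfg.2.ne, hf.2.ne⟩) e2
  rw [ENNReal.toReal_add hfg.2.ne hg.2.ne] at f1
  rw [ENNReal.toReal_add hfg.2.ne hf.2.ne] at f2
  rw [abs_le]
  constructor <;> linarith

/-! ### the variance -/

/-- the variance of the free Maxwell field, from the Fourier transforms of the components -/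
def sgF (W : Fin d → Fin d → Eu d → ℂ) : ℝ :=
  ∫ ξ, (∑ k, ‖∑ j, (ξ j : ℂ) * W j k ξ‖ ^ 2) / ‖ξ‖ ^ 2

/-- the vector whose norm is integrated -/
def cv (W : Fin d → Fin d → Eu d → ℂ) (ξ : Eu d) : EuclideanSpace ℂ (Fin d) :=
  WithLp.toLp 2 fun k => (‖ξ‖⁻¹ : ℂ) * ∑ j, (ξ j : ℂ) * W j k ξ

lemma cv_norm (W : Fin d → Fin d → Eu d → ℂ) (ξ : Eu d) :
    ‖cv W ξ‖ ^ 2 = (∑ k, ‖∑ j, (ξ j : ℂ) * W j k ξ‖ ^ 2) / ‖ξ‖ ^ 2 := by
  rw [EuclideanSpace.norm_sq_eq, Finset.sum_div]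
  refine Finset.sum_congr rfl fun k _ => ?_
  unfold cv
  simp only [norm_mul, norm_inv, Complex.norm_real, norm_norm]
  rw [mul_pow, inv_pow]
  field_simp

lemma sgF_cv (W : Fin d → Fin d → Eu d → ℂ) : sgF W = ∫ ξ, ‖cv W ξ‖ ^ 2 := by
  unfold sgF
  exact integral_congr_ae (Filter.Eventually.of_forall fun ξ => (cv_norm W ξ).symm)

lemma cv_sub (W W' : Fin d → Fin d → Eu d → ℂ) (ξ : Eu d) :
    cv W ξ - cv W' ξ = cv (fun j k ξ => W j k ξ - W' j k ξ) ξ := by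
  ext k
  unfold cv
  simp only [PiLp.sub_apply]
  rw [← mul_sub, ← Finset.sum_sub_distrib]
  congr 1
  exact Finset.sum_congr rfl fun j _ => by ring

lemma cv_le (W : Fin d → Fin d → Eu d → ℂ) (ξ : Eu d) : ‖cv W ξ‖ ^ 2 ≤ ∑ j, ∑ k, ‖W j k ξ‖ ^ 2 := by
  rw [cv_norm]
  have h1 : ∀ k, ‖∑ j, (ξ j : ℂ) * W j k ξ‖ ^ 2 ≤ ‖ξ‖ ^ 2 * ∑ j, ‖W j k ξ‖ ^ 2 := by
    intro k
    have h2 : ‖∑ j, (ξ j : ℂ) * W j k ξ‖ ≤ ∑ j, |ξ j| * ‖W j k ξ‖ := by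
      refine (norm_sum_le _ _).trans (Finset.sum_le_sum fun j _ => ?_)
      rw [norm_mul, Complex.norm_real, Real.norm_eq_abs]
    calc _ ≤ (∑ j, |ξ j| * ‖W j k ξ‖) ^ 2 := by gcongr
      _ ≤ (∑ j, |ξ j| ^ 2) * ∑ j, ‖W j k ξ‖ ^ 2 := Finset.sum_mul_sq_le_sq_mul_sq _ _ _
      _ = _ := by
          rw [EuclideanSpace.norm_sq_eq]
          simp only [Real.norm_eq_abs]
  rcases eq_or_ne ξ 0 with h0 | h0
  · rw [h0, norm_zero]
    simp only [ne_eq, OfNat.ofNat_ne_zero, not_false_eq_true, zero_pow, div_zero]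
    positivity
  · have hp : 0 < ‖ξ‖ ^ 2 := by have := norm_pos_iff.2 h0; positivity
    rw [div_le_iff₀ hp, Finset.sum_comm]
    calc _ ≤ ∑ k, ‖ξ‖ ^ 2 * ∑ j, ‖W j k ξ‖ ^ 2 := Finset.sum_le_sum fun k _ => h1 k
      _ = _ := by rw [← Finset.mul_sum, mul_comm]

lemma cv_meas {W : Fin d → Fin d → Eu d → ℂ} (hW : ∀ j k, Continuous (W j k)) :
    Measurable (cv W) := by
  unfold cv
  refine (WithLp.measurable_toLp 2 _).comp (measurable_pi_lambda _ fun k => ?_)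
  have h1 : Measurable fun ξ : Eu d => (‖ξ‖⁻¹ : ℂ) :=
    (Complex.measurable_ofReal.comp measurable_norm).inv
  have h2 : Continuous fun ξ : Eu d => ∑ j, (ξ j : ℂ) * W j k ξ :=
    continuous_finsetSum _ fun j _ =>
      (Complex.continuous_ofReal.comp (PiLp.continuous_apply 2 _ j)).mul (hW j k)
  exact h1.mul h2.measurable

lemma cv_memLp (Φ : Fin d → Fin d → 𝓢(Eu d, ℂ)) : MemLp (cv fun j k => Φ j k) 2 volume := by
  have hm : Measurable (cv fun j k => (Φ j k : Eu d → ℂ)) := cv_meas fun j k => (Φ j k).continuous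
  have hi : Integrable fun ξ => ∑ j, ∑ k, ‖Φ j k ξ‖ ^ 2 :=
    integrable_finsetSum _ fun j _ => integrable_finsetSum _ fun k _ =>
      ((Φ j k).memLp 2 volume).integrable_norm_pow (by norm_num)
  rw [memLp_two_iff_integrable_sq_norm hm.aestronglyMeasurable]
  refine hi.mono' (hm.norm.pow_const 2).aestronglyMeasurable (Filter.Eventually.of_forall fun ξ => ?_)
  rw [Real.norm_of_nonneg (sq_nonneg _)]
  exact cv_le _ ξ

/-- the variance of the free Maxwell field -/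
def sgS (Φ : Fin d → Fin d → 𝓢(Eu d, ℂ)) : ℝ :=
  sgF fun j k => ((𝓕 (Φ j k) : 𝓢(Eu d, ℂ)) : Eu d → ℂ)

/-- stability of the variance -/
lemma sg_stab (Φ Ψ : Fin d → Fin d → 𝓢(Eu d, ℂ)) :
    |Real.sqrt (sgS Φ) - Real.sqrt (sgS Ψ)| ≤
      Real.sqrt (∑ j, ∑ k, ∫ x, ‖Φ j k x - Ψ j k x‖ ^ 2) := by
  obtain ⟨A, hA⟩ : ∃ A : Fin d → Fin d → 𝓢(Eu d, ℂ), A = fun j k => 𝓕 (Φ j k) := ⟨_, rfl⟩
  obtain ⟨B, hB⟩ : ∃ B : Fin d → Fin d → 𝓢(Eu d, ℂ), B = fun j k => 𝓕 (Ψ j k) := ⟨_, rfl⟩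
  have hA' : ∀ j k, 𝓕 (Φ j k) = A j k := fun j k => by rw [hA]
  have hB' : ∀ j k, 𝓕 (Ψ j k) = B j k := fun j k => by rw [hB]
  have h0 : sgS Φ = ∫ ξ, ‖cv (fun j k => (A j k : Eu d → ℂ)) ξ‖ ^ 2 := by
    unfold sgS
    rw [sgF_cv]
    simp only [hA']
  have h0' : sgS Ψ = ∫ ξ, ‖cv (fun j k => (B j k : Eu d → ℂ)) ξ‖ ^ 2 := by
    unfold sgS
    rw [sgF_cv]
    simp only [hB']
  rw [h0, h0']
  refine (l2_tri (cv_memLp A) (cv_memLp B)).trans (Real.sqrt_le_sqrt ?_)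
  have h1 : ∀ j k, ∫ x, ‖Φ j k x - Ψ j k x‖ ^ 2 = ∫ ξ, ‖A j k ξ - B j k ξ‖ ^ 2 := by
    intro j k
    have h2 := integral_norm_sq_fourier (Φ j k - Ψ j k)
    have h3 : 𝓕 (Φ j k - Ψ j k) = A j k - B j k := by
      rw [sub_eq_add_neg, FourierTransform.fourier_add, FourierTransform.fourier_neg,
        ← sub_eq_add_neg, hA', hB']
    rw [h3] at h2
    exact h2.symm
  have hi : ∀ j k, Integrable fun ξ => ‖A j k ξ - B j k ξ‖ ^ 2 := fun j k =>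
    ((A j k - B j k).memLp 2 volume).integrable_norm_pow (by norm_num)
  simp only [h1]
  have h4 : ∑ j, ∑ k, ∫ ξ, ‖A j k ξ - B j k ξ‖ ^ 2 =
      ∫ ξ, ∑ j, ∑ k, ‖A j k ξ - B j k ξ‖ ^ 2 := by
    rw [integral_finsetSum _ fun j _ => integrable_finsetSum _ fun k _ => hi j k]
    exact Finset.sum_congr rfl fun j _ => (integral_finsetSum _ fun k _ => hi j k).symm
  rw [h4]
  refine integral_mono_of_nonneg (Filter.Eventually.of_forall fun ξ => sq_nonneg _)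
    (integrable_finsetSum _ fun j _ => integrable_finsetSum _ fun k _ => hi j k)
    (Filter.Eventually.of_forall fun ξ => ?_)
  simp only
  rw [cv_sub]
  exact cv_le _ ξ

/-! ### exact forms -/

lemma fourier_dd (f : 𝓢(Eu d, ℂ)) (a b : Fin d) (ξ : Eu d) :
    𝓕 (∂_{ue b} (∂_{ue a} f) : 𝓢(Eu d, ℂ)) ξ =
      -((2 * Real.pi) ^ 2 : ℝ) * ((ξ b : ℂ) * ((ξ a : ℂ) * 𝓕 f ξ)) := by
  have h1 : ∀ (g : 𝓢(Eu d, ℂ)) (c : Fin d), 𝓕 (∂_{ue c} g : 𝓢(Eu d, ℂ)) ξ =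
      (2 * Real.pi * Complex.I) * ((ξ c : ℂ) * 𝓕 g ξ) := by
    intro g c
    rw [fourier_lineDerivOp_eq, _root_.smul_apply, smulLeftCLM_apply_apply (by fun_prop),
      EuclideanSpace.inner_single_right]
    simp
  rw [h1, h1]
  push_cast
  have hI : Complex.I ^ 2 = -1 := Complex.I_sq
  linear_combination (4 * (Real.pi : ℂ) ^ 2 * ((ξ b : ℂ) * ((ξ a : ℂ) * 𝓕 f ξ))) * hI

/-- the exact part of minus the Laplacian -/
def EE (U : Fin d → Fin d → 𝓢(Eu d, ℂ)) (j k : Fin d) : 𝓢(Eu d, ℂ) :=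
  ∑ i, (-(∂_{ue i} (∂_{ue j} (U i k))) + ∂_{ue i} (∂_{ue k} (U i j)))

/-- minus the Laplacian -/
def LL (U : Fin d → Fin d → 𝓢(Eu d, ℂ)) (j k : Fin d) : 𝓢(Eu d, ℂ) := -(Δ (U j k))

/-- the contraction -/
def cc (U : Fin d → Fin d → 𝓢(Eu d, ℂ)) (ξ : Eu d) (k : Fin d) : ℂ :=
  ∑ i, (ξ i : ℂ) * 𝓕 (U i k) ξ

lemma EE_fourier (U : Fin d → Fin d → 𝓢(Eu d, ℂ)) (j k : Fin d) (ξ : Eu d) :
    𝓕 (EE U j k) ξ = ((2 * Real.pi) ^ 2 : ℝ) * ((ξ j : ℂ) * cc U ξ k - (ξ k : ℂ) * cc U ξ j) := by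
  unfold EE cc
  rw [FourierTransform.fourier_sum, _root_.sum_apply, Finset.mul_sum, Finset.mul_sum,
    ← Finset.sum_sub_distrib, Finset.mul_sum]
  refine Finset.sum_congr rfl fun i _ => ?_
  rw [FourierTransform.fourier_add, FourierTransform.fourier_neg, _root_.add_apply,
    _root_.neg_apply, fourier_dd, fourier_dd]
  ring

lemma LL_fourier (U : Fin d → Fin d → 𝓢(Eu d, ℂ)) (j k : Fin d) (ξ : Eu d) :
    𝓕 (LL U j k) ξ = ((2 * Real.pi) ^ 2 * ‖ξ‖ ^ 2 : ℝ) * 𝓕 (U j k) ξ := by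
  unfold LL
  rw [FourierTransform.fourier_neg, _root_.neg_apply, lap_fourier]
  ring

/-- pointwise identity -/
lemma alg_id (ξ : Fin d → ℝ) (c : Fin d → ℂ) (h : ∑ k, (ξ k : ℂ) * c k = 0) :
    ∑ j, ∑ k, ‖(ξ j : ℂ) * c k - (ξ k : ℂ) * c j‖ ^ 2 = 2 * ((∑ j, ξ j ^ 2) * ∑ k, ‖c k‖ ^ 2) := by
  have h1 : ∀ j k, ‖(ξ j : ℂ) * c k - (ξ k : ℂ) * c j‖ ^ 2 =
      ξ j ^ 2 * ‖c k‖ ^ 2 + ξ k ^ 2 * ‖c j‖ ^ 2 -
        2 * (((ξ k : ℂ) * c k) * (starRingEnd ℂ) ((ξ j : ℂ) * c j)).re := by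
    intro j k
    rw [Complex.sq_norm, Complex.sq_norm, Complex.sq_norm, Complex.normSq_apply,
      Complex.normSq_apply, Complex.normSq_apply]
    simp only [Complex.sub_re, Complex.mul_re, Complex.ofReal_re, Complex.ofReal_im, Complex.sub_im,
      Complex.mul_im, map_mul, Complex.conj_ofReal, Complex.conj_re, Complex.conj_im]
    ring
  simp only [h1]
  have h2 : ∑ j, ∑ k, (((ξ k : ℂ) * c k) * (starRingEnd ℂ) ((ξ j : ℂ) * c j)).re = 0 := by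
    have h3 : ∀ j, ∑ k, (((ξ k : ℂ) * c k) * (starRingEnd ℂ) ((ξ j : ℂ) * c j)).re = 0 := by
      intro j
      rw [← Complex.re_sum, ← Finset.sum_mul, h, zero_mul, Complex.zero_re]
    simp only [h3, Finset.sum_const_zero]
  simp only [Finset.sum_sub_distrib, Finset.sum_add_distrib, ← Finset.mul_sum, ← Finset.sum_mul, h2]
  ring

/-- the norm of the exact part -/
lemma EE_norm {U : Fin d → Fin d → 𝓢(Eu d, ℂ)} (hU : ∀ j k, U j k = -U k j) :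
    1 / 2 * ∑ j, ∑ k, ∫ x, ‖EE U j k x‖ ^ 2 = sgS (LL U) := by
  have h1 : ∀ j k, ∫ x, ‖EE U j k x‖ ^ 2 = ∫ ξ, ‖(𝓕 (EE U j k) : 𝓢(Eu d, ℂ)) ξ‖ ^ 2 := fun j k =>
    (integral_norm_sq_fourier (EE U j k)).symm
  have hi : ∀ j k, Integrable fun ξ => ‖(𝓕 (EE U j k) : 𝓢(Eu d, ℂ)) ξ‖ ^ 2 := fun j k =>
    ((𝓕 (EE U j k) : 𝓢(Eu d, ℂ)).memLp 2 volume).integrable_norm_pow (by norm_num)
  simp only [h1]
  have h4 : ∑ j, ∑ k, ∫ ξ, ‖(𝓕 (EE U j k) : 𝓢(Eu d, ℂ)) ξ‖ ^ 2 =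
      ∫ ξ, ∑ j, ∑ k, ‖(𝓕 (EE U j k) : 𝓢(Eu d, ℂ)) ξ‖ ^ 2 := by
    rw [integral_finsetSum _ fun j _ => integrable_finsetSum _ fun k _ => hi j k]
    exact Finset.sum_congr rfl fun j _ => (integral_finsetSum _ fun k _ => hi j k).symm
  rw [h4, ← integral_const_mul]
  unfold sgS sgF
  refine integral_congr_ae (Filter.Eventually.of_forall fun ξ => ?_)
  simp only [EE_fourier, LL_fourier]
  have hc : ∑ k, (ξ k : ℂ) * cc U ξ k = 0 := by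
    unfold cc
    have e1 : ∑ k, (ξ k : ℂ) * ∑ i, (ξ i : ℂ) * 𝓕 (U i k) ξ =
        ∑ k, ∑ i, (ξ k : ℂ) * (ξ i : ℂ) * 𝓕 (U i k) ξ := by
      refine Finset.sum_congr rfl fun k _ => ?_
      rw [Finset.mul_sum]
      exact Finset.sum_congr rfl fun i _ => by ring
    rw [e1]
    obtain ⟨S, hS⟩ : ∃ S, S = ∑ k, ∑ i, (ξ k : ℂ) * (ξ i : ℂ) * 𝓕 (U i k) ξ := ⟨_, rfl⟩
    have e2 : S = -S := by
      calc S = ∑ i, ∑ k, (ξ k : ℂ) * (ξ i : ℂ) * 𝓕 (U i k) ξ := by rw [hS, Finset.sum_comm]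
        _ = ∑ i, ∑ k, -((ξ i : ℂ) * (ξ k : ℂ) * 𝓕 (U k i) ξ) := by
            refine Finset.sum_congr rfl fun i _ => Finset.sum_congr rfl fun k _ => ?_
            rw [hU i k, FourierTransform.fourier_neg, _root_.neg_apply]
            ring
        _ = -S := by rw [hS]; simp only [Finset.sum_neg_distrib]
    rw [← hS]
    linear_combination (1 / 2 : ℂ) * e2
  have h5 := alg_id (fun i => ξ i) (cc U ξ) hc
  have h6 : ∑ j, ∑ k, ‖(((2 * Real.pi) ^ 2 : ℝ) : ℂ) * ((ξ j : ℂ) * cc U ξ k -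
      (ξ k : ℂ) * cc U ξ j)‖ ^ 2 = ((2 * Real.pi) ^ 2) ^ 2 *
        (2 * ((∑ j, ξ j ^ 2) * ∑ k, ‖cc U ξ k‖ ^ 2)) := by
    rw [← h5, Finset.mul_sum]
    refine Finset.sum_congr rfl fun j _ => ?_
    rw [Finset.mul_sum]
    refine Finset.sum_congr rfl fun k _ => ?_
    rw [norm_mul, mul_pow, Complex.norm_real, Real.norm_of_nonneg (by positivity)]
  have h7 : ∑ j, ξ j ^ 2 = ‖ξ‖ ^ 2 := by
    rw [EuclideanSpace.norm_sq_eq]
    simp only [Real.norm_eq_abs, sq_abs]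
  have h8 : ∀ k, ∑ j, (ξ j : ℂ) * ((((2 * Real.pi) ^ 2 * ‖ξ‖ ^ 2 : ℝ) : ℂ) * 𝓕 (U j k) ξ) =
      (((2 * Real.pi) ^ 2 * ‖ξ‖ ^ 2 : ℝ) : ℂ) * cc U ξ k := by
    intro k
    unfold cc
    rw [Finset.mul_sum]
    exact Finset.sum_congr rfl fun j _ => by ring
  have h9 : ∑ k, ‖∑ j, (ξ j : ℂ) * ((((2 * Real.pi) ^ 2 * ‖ξ‖ ^ 2 : ℝ) : ℂ) * 𝓕 (U j k) ξ)‖ ^ 2 =
      ((2 * Real.pi) ^ 2 * ‖ξ‖ ^ 2) ^ 2 * ∑ k, ‖cc U ξ k‖ ^ 2 := by
    rw [Finset.mul_sum]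
    refine Finset.sum_congr rfl fun k _ => ?_
    rw [h8, norm_mul, mul_pow, Complex.norm_real, Real.norm_of_nonneg (by positivity)]
  rw [h6, h9, h7]
  rcases eq_or_ne ξ 0 with h0 | h0
  · rw [h0, norm_zero]; simp
  · have hp : 0 < ‖ξ‖ := norm_pos_iff.2 h0
    field_simp

end

end Pool.Agent.W2helper11.MX
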