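import Mathlib
import Pool.Agent.W2helper11.MX.Cut
import Pool.Agent.W2helper11.MX.Four

/-!
# Approximation of two forms by Laplacians
-/

open Filter Topology MeasureTheory SchwartzMap
open scoped ContDiff FourierTransform Laplacian LineDeriv

namespace Pool.Agent.W2helper11.MX

noncomputable section

variable {d : ℕ}

/-- smooth functions of compact support -/
structure Sc (u : Eu d → ℝ) : Prop where
  sm : ContDiff ℝ ∞ u
  cs : HasCompactSupport u

lemma Sc.zero : Sc (fun _ : Eu d => (0 : ℝ)) := ⟨contDiff_const, HasCompactSupport.zero⟩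

lemma Sc.neg {u : Eu d → ℝ} (h : Sc u) : Sc (fun x => -u x) := ⟨h.sm.neg, h.cs.neg⟩

/-- the Schwartz function -/
def Sc.sz {u : Eu d → ℝ} (h : Sc u) : 𝓢(Eu d, ℂ) :=
  (h.cs.comp_left (g := fun t : ℝ => (t : ℂ)) rfl).toSchwartzMap
    (Complex.ofRealCLM.contDiff.comp h.sm)

lemma Sc.sz_apply {u : Eu d → ℝ} (h : Sc u) (x : Eu d) : h.sz x = (u x : ℂ) := rfl

lemma Sc.fourier_sz {u : Eu d → ℝ} (h : Sc u) :
    ((𝓕 h.sz : 𝓢(Eu d, ℂ)) : Eu d → ℂ) = 𝓕 (fun x => (u x : ℂ)) := rfl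

lemma fd_sz {u : Eu d → ℝ} (h : Sc u) {F : 𝓢(Eu d, ℂ)} (hF : ∀ x, F x = (u x : ℂ)) (a x : Eu d) :
    (∂_{a} F : 𝓢(Eu d, ℂ)) x = ((fderiv ℝ u x a : ℝ) : ℂ) := by
  rw [lineDerivOp_apply_eq_fderiv]
  have h1 : HasFDerivAt (fun y => ((u y : ℝ) : ℂ)) (Complex.ofRealCLM.comp (fderiv ℝ u x)) x :=
    Complex.ofRealCLM.hasFDerivAt.comp x
      ((h.sm.differentiable (by simp)).differentiableAt.hasFDerivAt)
  have h2 : (F : Eu d → ℂ) = fun y => ((u y : ℝ) : ℂ) := funext hF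
  rw [h2, h1.fderiv]
  rfl

lemma D2_sz {u : Eu d → ℝ} (h : Sc u) (a b x : Eu d) :
    (∂_{b} (∂_{a} h.sz) : 𝓢(Eu d, ℂ)) x = ((D2 u a b x : ℝ) : ℂ) :=
  fd_sz ⟨fd_contDiff h.sm a, fd_supp h.cs a⟩ (fun y => fd_sz h h.sz_apply a y) b x

lemma lap_sz {u : Eu d → ℝ} (h : Sc u) (x : Eu d) :
    (Δ h.sz : 𝓢(Eu d, ℂ)) x = ((∑ i, D2 u (ue i) (ue i) x : ℝ) : ℂ) := by
  rw [laplacian_eq_sum (EuclideanSpace.basisFun (Fin d) ℝ)]
  simp only [_root_.sum_apply, EuclideanSpace.basisFun_apply, D2_sz, Complex.ofReal_sum]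

/-- the exact part of minus the Laplacian of a two form -/
def Ecl (u : Fin d → Fin d → Eu d → ℝ) (j k : Fin d) (x : Eu d) : ℝ :=
  ∑ i, (-(D2 (u i k) (ue j) (ue i) x) + D2 (u i j) (ue k) (ue i) x)

/-- the variance of the free Maxwell field -/
def sgm (φ : Fin d → Fin d → Eu d → ℝ) : ℝ := sgF fun j k => 𝓕 fun x => (φ j k x : ℂ)

lemma D2_fneg (u : Eu d → ℝ) (a b x : Eu d) : D2 (fun y => -u y) a b x = -D2 u a b x := by
  unfold D2
  have h1 : (fun y => fderiv ℝ (fun y => -u y) y a) = fun y => -(fderiv ℝ u y a) := by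
    funext y
    rw [fderiv_fun_neg]; rfl
  rw [h1, fderiv_fun_neg]
  rfl

/-- Approximation of two forms by Laplacians. -/
theorem cont_approx (hd : 1 ≤ d) {φ : Fin d → Fin d → Eu d → ℝ} (hφ : ∀ j k, Sc (φ j k))
    (ha : ∀ j k x, φ j k x = -φ k j x) {η : ℝ} (hη : 0 < η) :
    ∃ u : Fin d → Fin d → Eu d → ℝ, (∀ j k, Sc (u j k)) ∧ (∀ j k x, u j k x = -u k j x) ∧
      (∑ j, ∑ k, ∫ x, (φ j k x + ∑ i, D2 (u j k) (ue i) (ue i) x) ^ 2 ≤ η ^ 2) ∧
      |Real.sqrt (1 / 2 * ∑ j, ∑ k, ∫ x, Ecl u j k x ^ 2) - Real.sqrt (sgm φ)| ≤ η := by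
  have hd0 : (0 : ℝ) < d := by exact_mod_cast hd
  have hex : ∀ j k : Fin d, ∃ w : Eu d → ℝ, ContDiff ℝ ∞ w ∧ HasCompactSupport w ∧
      ∫ x, (φ j k x + ∑ i, D2 w (ue i) (ue i) x) ^ 2 < η ^ 2 / (d * d) := fun j k =>
    dens hd (hφ j k).sm (hφ j k).cs (by positivity)
  choose w hw1 hw2 hw3 using hex
  obtain ⟨u, hu⟩ : ∃ u : Fin d → Fin d → Eu d → ℝ, u = fun j k x =>
    if j < k then w j k x else if k < j then -w k j x else 0 := ⟨_, rfl⟩
  have hlt : ∀ j k, j < k → u j k = w j k := fun j k h => by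
    rw [hu]; funext x; simp only [if_pos h]
  have hgt : ∀ j k, k < j → u j k = fun x => -w k j x := fun j k h => by
    rw [hu]; funext x; simp only [if_neg (not_lt.2 h.le), if_pos h]
  have heq : ∀ j, u j j = fun _ => 0 := fun j => by
    rw [hu]; funext x; simp only [lt_irrefl, if_false]
  have hS : ∀ j k, Sc (u j k) := by
    intro j k
    rcases lt_trichotomy j k with h | h | h
    · rw [hlt j k h]; exact ⟨hw1 j k, hw2 j k⟩
    · rw [h, heq]; exact Sc.zero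
    · rw [hgt j k h]; exact Sc.neg ⟨hw1 k j, hw2 k j⟩
  have hA : ∀ j k x, u j k x = -u k j x := by
    intro j k x
    rcases lt_trichotomy j k with h | h | h
    · rw [hlt j k h, hgt k j h]; ring
    · rw [h, heq]; ring
    · rw [hlt k j h, hgt j k h]
  have hE : ∀ j k, ∫ x, (φ j k x + ∑ i, D2 (u j k) (ue i) (ue i) x) ^ 2 ≤ η ^ 2 / (d * d) := by
    intro j k
    rcases lt_trichotomy j k with h | h | h
    · rw [hlt j k h]; exact (hw3 j k).le
    · subst h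
      rw [heq]
      have h1 : ∀ x, (φ j j x + ∑ i, D2 (fun _ : Eu d => (0 : ℝ)) (ue i) (ue i) x) ^ 2 = 0 := by
        intro x
        have h2 : φ j j x = 0 := by have := ha j j x; linarith
        have h3 : ∀ i : Fin d, D2 (fun _ : Eu d => (0 : ℝ)) (ue i) (ue i) x = 0 := by
          intro i
          unfold D2
          simp
        rw [h2]
        simp [h3]
      simp only [h1, integral_zero]
      positivity
    · rw [hgt j k h]
      have h1 : ∀ x, (φ j k x + ∑ i, D2 (fun y => -w k j y) (ue i) (ue i) x) ^ 2 =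
          (φ k j x + ∑ i, D2 (w k j) (ue i) (ue i) x) ^ 2 := by
        intro x
        rw [ha j k x]
        simp only [D2_fneg, Finset.sum_neg_distrib]
        ring
      simp only [h1]
      exact (hw3 k j).le
  have hE2 : ∑ j, ∑ k, ∫ x, (φ j k x + ∑ i, D2 (u j k) (ue i) (ue i) x) ^ 2 ≤ η ^ 2 := by
    calc _ ≤ ∑ _j : Fin d, ∑ _k : Fin d, η ^ 2 / (d * d) :=
          Finset.sum_le_sum fun j _ => Finset.sum_le_sum fun k _ => hE j k
      _ = η ^ 2 := by
          simp only [Finset.sum_const, Finset.card_univ, Fintype.card_fin, nsmul_eq_mul]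
          field_simp
  refine ⟨u, hS, hA, hE2, ?_⟩
  obtain ⟨U, hU⟩ : ∃ U : Fin d → Fin d → 𝓢(Eu d, ℂ), U = fun j k => (hS j k).sz := ⟨_, rfl⟩
  obtain ⟨Φ, hΦ⟩ : ∃ Φ : Fin d → Fin d → 𝓢(Eu d, ℂ), Φ = fun j k => (hφ j k).sz := ⟨_, rfl⟩
  have hUa : ∀ j k, U j k = -U k j := by
    intro j k
    ext x
    rw [hU, _root_.neg_apply]
    simp only [Sc.sz_apply]
    rw [hA j k x]
    push_cast; ring
  have h1 : 1 / 2 * ∑ j, ∑ k, ∫ x, Ecl u j k x ^ 2 = sgS (LL U) := by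
    rw [← EE_norm hUa]
    congr 1
    refine Finset.sum_congr rfl fun j _ => Finset.sum_congr rfl fun k _ => ?_
    refine integral_congr_ae (Filter.Eventually.of_forall fun x => ?_)
    simp only
    have h2 : EE U j k x = ((Ecl u j k x : ℝ) : ℂ) := by
      unfold EE Ecl
      rw [_root_.sum_apply, Complex.ofReal_sum]
      refine Finset.sum_congr rfl fun i _ => ?_
      rw [hU, _root_.add_apply, _root_.neg_apply, D2_sz, D2_sz]
      push_cast; ring
    rw [h2, Complex.norm_real, Real.norm_eq_abs, sq_abs]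
  have h2 : sgm φ = sgS Φ := by
    unfold sgm sgS
    congr 1
    funext j k
    rw [hΦ]
    rfl
  rw [h1, h2]
  refine (sg_stab _ _).trans ?_
  have h3 : ∀ j k, ∫ x, ‖LL U j k x - Φ j k x‖ ^ 2 =
      ∫ x, (φ j k x + ∑ i, D2 (u j k) (ue i) (ue i) x) ^ 2 := by
    intro j k
    refine integral_congr_ae (Filter.Eventually.of_forall fun x => ?_)
    simp only
    have h4 : LL U j k x - Φ j k x =
        ((-(φ j k x + ∑ i, D2 (u j k) (ue i) (ue i) x) : ℝ) : ℂ) := by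
      unfold LL
      rw [hU, hΦ, _root_.neg_apply, lap_sz]
      simp only [Sc.sz_apply]
      push_cast; ring
    rw [h4, Complex.norm_real, Real.norm_eq_abs, sq_abs, neg_sq]
  simp only [h3]
  rw [Real.sqrt_le_left hη.le]
  exact hE2

end

end Pool.Agent.W2helper11.MX
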