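import Mathlib
import Pool.Agent.W2helper11.MX.Cont

/-!
# The covariance of the free Maxwell field
-/

open Filter Topology MeasureTheory SchwartzMap
open scoped ContDiff FourierTransform Laplacian LineDeriv InnerProductSpace

namespace Pool.Agent.W2helper11.MX

noncomputable section

variable {d K : ℕ}

/-- the covariance of the free Maxwell field, from the Fourier transforms -/
def cvF (W W' : Fin d → Fin d → Eu d → ℂ) : ℝ :=
  ∫ ξ, (∑ k, ((∑ j, (ξ j : ℂ) * W j k ξ) *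
    (starRingEnd ℂ) (∑ j, (ξ j : ℂ) * W' j k ξ)).re) / ‖ξ‖ ^ 2

lemma cv_inner (W W' : Fin d → Fin d → Eu d → ℂ) (ξ : Eu d) :
    (inner ℂ (cv W' ξ) (cv W ξ) : ℂ).re = (∑ k, ((∑ j, (ξ j : ℂ) * W j k ξ) *
      (starRingEnd ℂ) (∑ j, (ξ j : ℂ) * W' j k ξ)).re) / ‖ξ‖ ^ 2 := by
  rw [PiLp.inner_apply, Complex.re_sum, Finset.sum_div]
  refine Finset.sum_congr rfl fun k _ => ?_
  unfold cv
  simp only [RCLike.inner_apply, map_mul, map_inv₀, Complex.conj_ofReal]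
  have h1 : (‖ξ‖⁻¹ : ℂ) * (∑ j, (ξ j : ℂ) * W j k ξ) *
      ((‖ξ‖⁻¹ : ℂ) * (starRingEnd ℂ) (∑ j, (ξ j : ℂ) * W' j k ξ)) =
      (((‖ξ‖ ^ 2)⁻¹ : ℝ) : ℂ) * ((∑ j, (ξ j : ℂ) * W j k ξ) *
        (starRingEnd ℂ) (∑ j, (ξ j : ℂ) * W' j k ξ)) := by
    push_cast
    ring
  rw [h1, Complex.re_ofReal_mul, inv_mul_eq_div]

lemma cv_comb (t : Fin K → ℝ) (W : Fin K → Fin d → Fin d → Eu d → ℂ) (ξ : Eu d) :
    cv (fun j k ξ => ∑ i, (t i : ℂ) * W i j k ξ) ξ = ∑ i, (t i : ℂ) • cv (W i) ξ := by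
  ext k
  rw [WithLp.ofLp_sum, Finset.sum_apply]
  simp only [cv, PiLp.smul_apply, smul_eq_mul, Finset.mul_sum]
  rw [Finset.sum_comm]
  refine Finset.sum_congr rfl fun i _ => Finset.sum_congr rfl fun j _ => ?_
  ring

lemma cvF_self (W : Fin d → Fin d → Eu d → ℂ) : cvF W W = sgF W := by
  unfold cvF sgF
  refine integral_congr_ae (Filter.Eventually.of_forall fun ξ => ?_)
  simp only
  congr 1
  refine Finset.sum_congr rfl fun k _ => ?_
  rw [Complex.mul_conj, Complex.ofReal_re, Complex.normSq_eq_norm_sq]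

lemma cvF_symm (W W' : Fin d → Fin d → Eu d → ℂ) : cvF W W' = cvF W' W := by
  unfold cvF
  refine integral_congr_ae (Filter.Eventually.of_forall fun ξ => ?_)
  simp only
  congr 1
  refine Finset.sum_congr rfl fun k _ => ?_
  rw [← Complex.conj_re, map_mul, Complex.conj_conj, mul_comm]

lemma l2_inner {X V : Type*} [MeasurableSpace X] {μ : Measure X} [NormedAddCommGroup V]
    [InnerProductSpace ℂ V] {f g : X → V} (hf : MemLp f 2 μ) (hg : MemLp g 2 μ) :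
    Integrable (fun x => (inner ℂ (f x) (g x) : ℂ).re) μ := by
  have h1 := (L2.integrable_inner (𝕜 := ℂ) (hf.toLp f) (hg.toLp g)).re
  refine h1.congr ?_
  filter_upwards [hf.coeFn_toLp, hg.coeFn_toLp] with x h2 h3
  rw [h2, h3]
  rfl

/-- the quadratic form of the covariance -/
lemma cvF_quad (t : Fin K → ℝ) (Φ : Fin K → Fin d → Fin d → 𝓢(Eu d, ℂ)) :
    ∑ i, ∑ i', t i * t i' * cvF (fun j k => (Φ i j k : Eu d → ℂ)) (fun j k => (Φ i' j k : Eu d → ℂ)) =
      sgF fun j k ξ => ∑ i, (t i : ℂ) * Φ i j k ξ := by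
  rw [sgF_cv]
  have hi : ∀ i i', Integrable fun ξ => (inner ℂ (cv (fun j k => (Φ i' j k : Eu d → ℂ)) ξ)
      (cv (fun j k => (Φ i j k : Eu d → ℂ)) ξ) : ℂ).re := fun i i' =>
    l2_inner (cv_memLp (Φ i')) (cv_memLp (Φ i))
  have h1 : ∀ i i', cvF (fun j k => (Φ i j k : Eu d → ℂ)) (fun j k => (Φ i' j k : Eu d → ℂ)) =
      ∫ ξ, (inner ℂ (cv (fun j k => (Φ i' j k : Eu d → ℂ)) ξ)
        (cv (fun j k => (Φ i j k : Eu d → ℂ)) ξ) : ℂ).re := by
    intro i i'
    unfold cvF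
    exact integral_congr_ae (Filter.Eventually.of_forall fun ξ => (cv_inner _ _ ξ).symm)
  simp only [h1]
  have h2 : ∀ ξ, ‖cv (fun j k ξ => ∑ i, (t i : ℂ) * Φ i j k ξ) ξ‖ ^ 2 =
      ∑ i, ∑ i', t i * t i' * (inner ℂ (cv (fun j k => (Φ i' j k : Eu d → ℂ)) ξ)
        (cv (fun j k => (Φ i j k : Eu d → ℂ)) ξ) : ℂ).re := by
    intro ξ
    have h3 := cv_comb t (fun i j k => (Φ i j k : Eu d → ℂ)) ξ
    rw [h3]
    have h4 : ∀ v : EuclideanSpace ℂ (Fin d), ‖v‖ ^ 2 = (inner ℂ v v : ℂ).re := by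
      intro v
      rw [inner_self_eq_norm_sq_to_K]
      norm_cast
    rw [h4, sum_inner, Complex.re_sum, Finset.sum_comm]
    refine Finset.sum_congr rfl fun i _ => ?_
    rw [inner_smul_left, inner_sum, Finset.mul_sum, Complex.re_sum]
    refine Finset.sum_congr rfl fun i' _ => ?_
    rw [inner_smul_right, Complex.conj_ofReal, ← mul_assoc, ← Complex.ofReal_mul,
      Complex.re_ofReal_mul]
    ring
  simp only [h2]
  rw [integral_finsetSum _ fun i _ => integrable_finsetSum _ fun i' _ => (hi i i').const_mul _]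
  refine Finset.sum_congr rfl fun i _ => ?_
  rw [integral_finsetSum _ fun i' _ => (hi i i').const_mul _]
  refine Finset.sum_congr rfl fun i' _ => ?_
  rw [integral_const_mul]

/-- linear combinations of functions -/
lemma Sc.comb {u : Fin K → Eu d → ℝ} (h : ∀ i, Sc (u i)) (t : Fin K → ℝ) :
    Sc fun x => ∑ i, t i * u i x := by
  constructor
  · exact ContDiff.sum fun i _ => contDiff_const.mul (h i).sm
  · have h2 : (fun x => ∑ i, t i * u i x) = ∑ i, (fun x => t i * u i x) := by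
      funext x; rw [Finset.sum_apply]
    rw [h2]
    exact HasCompactSupport.finset_sum fun i _ => (h i).cs.mul_left

lemma fourier_comb {u : Fin K → Eu d → ℝ} (h : ∀ i, Sc (u i)) (t : Fin K → ℝ) (ξ : Eu d) :
    𝓕 (fun x => ((∑ i, t i * u i x : ℝ) : ℂ)) ξ = ∑ i, (t i : ℂ) * 𝓕 (fun x => (u i x : ℂ)) ξ := by
  have h1 : (Sc.comb h t).sz = ∑ i, (t i : ℂ) • (h i).sz := by
    ext x
    rw [_root_.sum_apply]
    simp only [_root_.smul_apply, Sc.sz_apply, smul_eq_mul]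
    push_cast
    rfl
  have h2 : 𝓕 (fun x => ((∑ i, t i * u i x : ℝ) : ℂ)) ξ = (𝓕 (Sc.comb h t).sz : 𝓢(Eu d, ℂ)) ξ := rfl
  rw [h2, h1, FourierTransform.fourier_sum, _root_.sum_apply]
  refine Finset.sum_congr rfl fun i _ => ?_
  rw [FourierTransform.fourier_smul, _root_.smul_apply, smul_eq_mul]
  rfl

end

end Pool.Agent.W2helper11.MX
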