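import Mathlib

/-!
# Riemann sums
-/

open Filter Topology MeasureTheory
open scoped ContDiff

namespace Pool.Agent.W2helper11.MX

noncomputable section

variable {d : ℕ}

/-- the point `y / r` -/
def emb (r : ℕ) (y : Fin d → ℤ) : EuclideanSpace ℝ (Fin d) := WithLp.toLp 2 fun i => (y i : ℝ) / r

@[simp] lemma emb_apply (r : ℕ) (y : Fin d → ℤ) (i : Fin d) : emb r y i = (y i : ℝ) / r := rfl

/-- support in a cube -/
def InBox (R : ℝ) (g : EuclideanSpace ℝ (Fin d) → ℝ) : Prop := ∀ x, g x ≠ 0 → ∀ i, |x i| ≤ R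

lemma InBox.mono {R R' : ℝ} {g : EuclideanSpace ℝ (Fin d) → ℝ} (h : InBox R g) (hR : R ≤ R') :
    InBox R' g := fun x hx i => (h x hx i).trans hR

lemma exists_box {g : EuclideanSpace ℝ (Fin d) → ℝ} (hg : HasCompactSupport g) :
    ∃ R : ℝ, 0 < R ∧ InBox R g := by
  obtain ⟨R, hR⟩ := hg.isCompact.isBounded.exists_norm_le
  refine ⟨max R 1, by positivity, fun x hx i => ?_⟩
  have h1 := hR x (subset_tsupport g hx)
  have h2 : ‖x i‖ ≤ ‖x‖ := PiLp.norm_apply_le x i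
  rw [Real.norm_eq_abs] at h2
  exact (h2.trans h1).trans (le_max_left _ _)

/-- the integers of absolute value at most `k` -/
def bx (d k : ℕ) : Finset (Fin d → ℤ) := Fintype.piFinset fun _ => Finset.Icc (-(k : ℤ)) k

lemma mem_bx {k : ℕ} {y : Fin d → ℤ} : y ∈ bx d k ↔ ∀ i, |y i| ≤ k := by
  unfold bx
  rw [Fintype.mem_piFinset]
  refine forall_congr' fun i => ?_
  rw [Finset.mem_Icc, abs_le]

lemma card_bx (k : ℕ) : (bx d k).card = (2 * k + 1) ^ d := by
  unfold bx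
  rw [Fintype.card_piFinset]
  simp only [Int.card_Icc, Finset.prod_const, Finset.card_univ, Fintype.card_fin]
  congr 1
  omega

lemma emb_box {R : ℝ} {g : EuclideanSpace ℝ (Fin d) → ℝ} (h : InBox R g) {r : ℕ} (hr : 0 < r)
    {k : ℕ} (hk : R * r ≤ k) {y : Fin d → ℤ} (hy : g (emb r y) ≠ 0) : y ∈ bx d k := by
  rw [mem_bx]
  intro i
  have h1 := h _ hy i
  have hr0 : (0 : ℝ) < r := by exact_mod_cast hr
  rw [emb_apply, abs_div, abs_of_pos hr0, div_le_iff₀ hr0] at h1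
  have h2 : |(y i : ℝ)| ≤ k := h1.trans hk
  exact_mod_cast h2

lemma tsum_emb {R : ℝ} {g : EuclideanSpace ℝ (Fin d) → ℝ} (h : InBox R g) {r : ℕ} (hr : 0 < r)
    {k : ℕ} (hk : R * r ≤ k) : ∑' y : Fin d → ℤ, g (emb r y) = ∑ y ∈ bx d k, g (emb r y) :=
  tsum_eq_sum fun y hy => by
    by_contra h1
    exact hy (emb_box h hr hk h1)

open scoped Pointwise in
/-- Riemann sums converge. -/
lemma riem {R : ℝ} {g : EuclideanSpace ℝ (Fin d) → ℝ} (h : InBox R g) (hg : Continuous g) :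
    Tendsto (fun r : ℕ => (∑' y : Fin d → ℤ, g (emb r y)) / (r : ℝ) ^ d) atTop (𝓝 (∫ x, g x)) := by
  obtain ⟨F, hF⟩ : ∃ F : (Fin d → ℝ) → ℝ, F = fun x => g (WithLp.toLp 2 x) := ⟨_, rfl⟩
  have hFc : Continuous F := by
    rw [hF]; exact hg.comp (PiLp.continuous_toLp 2 _)
  obtain ⟨s, hs⟩ : ∃ s : Set (Fin d → ℝ), s = Set.Icc (fun _ => -R) (fun _ => R) := ⟨_, rfl⟩
  have hs1 : Bornology.IsBounded s := by rw [hs]; exact Metric.isBounded_Icc _ _
  have hs2 : MeasurableSet s := by rw [hs]; exact measurableSet_Icc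
  have hs3 : volume (frontier s) = 0 := by
    rw [hs]
    exact (convex_Icc _ _).addHaar_frontier _
  have hFs : ∀ x, F x ≠ 0 → x ∈ s := by
    intro x hx
    rw [hF] at hx
    have h1 := h _ hx
    rw [hs]
    exact ⟨fun i => (abs_le.1 (h1 i)).1, fun i => (abs_le.1 (h1 i)).2⟩
  have key := tendsto_tsum_div_pow_atTop_integral s F hFc hs1 hs2 hs3
  rw [Fintype.card_fin] at key
  have h1 : ∫ x in s, F x = ∫ x, g x := by
    rw [setIntegral_eq_integral_of_forall_compl_eq_zero (fun x hx => by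
      by_contra h2; exact hx (hFs x h2)), hF]
    exact (EuclideanSpace.volume_preserving_symm_measurableEquiv_toLp (Fin d)).symm.integral_comp'
      (g := g)
  rw [h1] at key
  refine key.congr' ?_
  filter_upwards [eventually_gt_atTop 0] with r hr
  congr 1
  have hr0 : (0 : ℝ) < r := by exact_mod_cast hr
  have : NeZero r := ⟨hr.ne'⟩
  obtain ⟨S, hS⟩ : ∃ S : Set (Fin d → ℝ), S = s ∩ (r : ℝ)⁻¹ •
    (Submodule.span ℤ (Set.range (Pi.basisFun ℝ (Fin d))) : Set (Fin d → ℝ)) := ⟨_, rfl⟩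
  have h2 : ∑' x : S, F x = ∑' x : Fin d → ℝ, S.indicator F x := tsum_subtype S F
  have h3 : Function.Injective fun y : Fin d → ℤ => fun i => (y i : ℝ) / r := by
    intro y y' hyy
    funext i
    have h4 := congrFun hyy i
    simp only at h4
    rw [div_left_inj' hr0.ne'] at h4
    exact_mod_cast h4
  have h4 : ∑' y : Fin d → ℤ, S.indicator F (fun i => (y i : ℝ) / r) =
      ∑' x : Fin d → ℝ, S.indicator F x := by
    refine h3.tsum_eq ?_
    intro x hx
    have h5 : x ∈ S := by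
      by_contra h6
      exact hx (Set.indicator_of_notMem h6 _)
    rw [hS] at h5
    have h6 := BoxIntegral.unitPartition.mem_smul_span_iff.1 h5.2
    choose y hy using h6
    refine ⟨y, ?_⟩
    funext i
    have := hy i
    simp only [algebraMap_int_eq, eq_intCast] at this
    simp only
    rw [this]
    field_simp
  show ∑' x : ↑(s ∩ (r : ℝ)⁻¹ •
    (Submodule.span ℤ (Set.range (Pi.basisFun ℝ (Fin d))) : Set (Fin d → ℝ))), F x = _
  rw [← hS, h2, ← h4]
  refine tsum_congr fun y => ?_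
  by_cases h5 : F (fun i => (y i : ℝ) / r) = 0
  · have h6 : g (emb r y) = 0 := by rw [hF] at h5; exact h5
    rw [h6]
    by_cases h7 : (fun i => (y i : ℝ) / r) ∈ S
    · rw [Set.indicator_of_mem h7, h5]
    · rw [Set.indicator_of_notMem h7]
  · have h6 : (fun i => (y i : ℝ) / r) ∈ S := by
      rw [hS]
      refine ⟨hFs _ h5, BoxIntegral.unitPartition.mem_smul_span_iff.2 fun i => ⟨y i, ?_⟩⟩
      simp only [algebraMap_int_eq, eq_intCast]
      field_simp
    rw [Set.indicator_of_mem h6, hF]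
    rfl

/-- Riemann sums of uniformly convergent functions -/
lemma riem_unif {R : ℝ} (hR : 0 < R) {g : EuclideanSpace ℝ (Fin d) → ℝ} (h : InBox R g)
    (hg : Continuous g)
    {G : ℕ → EuclideanSpace ℝ (Fin d) → ℝ} (hG : ∀ᶠ r in atTop, InBox R (G r))
    (hu : ∀ ε : ℝ, 0 < ε → ∀ᶠ r in atTop, ∀ x, |G r x - g x| ≤ ε) :
    Tendsto (fun r : ℕ => (∑' y : Fin d → ℤ, G r (emb r y)) / (r : ℝ) ^ d) atTop
      (𝓝 (∫ x, g x)) := by
  rw [Metric.tendsto_atTop']
  intro ε hε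
  have h1 := riem h hg
  have h2 : ∀ᶠ r : ℕ in atTop, dist ((∑' y : Fin d → ℤ, g (emb r y)) / (r : ℝ) ^ d)
      (∫ x, g x) < ε / 2 := (Metric.tendsto_nhds.1 h1) _ (half_pos hε)
  obtain ⟨c, hc⟩ : ∃ c : ℝ, c = (2 * (R + 1) + 1) ^ d := ⟨_, rfl⟩
  have hc0 : 0 < c := by rw [hc]; positivity
  have h3 := hu (ε / (4 * c)) (by positivity)
  have h4 : ∀ᶠ r : ℕ in atTop, dist ((∑' y : Fin d → ℤ, G r (emb r y)) / (r : ℝ) ^ d)
      (∫ x, g x) < ε := by
    filter_upwards [h2, h3, hG, eventually_gt_atTop 0] with r g1 g2 g3 g4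
    have hr0 : (0 : ℝ) < r := by exact_mod_cast g4
    have hr1 : (1 : ℝ) ≤ r := by exact_mod_cast g4
    obtain ⟨k, hk⟩ : ∃ k : ℕ, k = ⌈R * r⌉₊ := ⟨_, rfl⟩
    have hk1 : R * r ≤ k := by rw [hk]; exact Nat.le_ceil _
    have hk2 : (k : ℝ) ≤ (R + 1) * r := by
      have := Nat.ceil_lt_add_one (show 0 ≤ R * r by positivity)
      rw [← hk] at this
      nlinarith
    rw [tsum_emb g3 g4 hk1]
    rw [tsum_emb h g4 hk1] at g1
    have h5 : |(∑ y ∈ bx d k, G r (emb r y)) / (r : ℝ) ^ d -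
        (∑ y ∈ bx d k, g (emb r y)) / (r : ℝ) ^ d| ≤ ε / 4 := by
      rw [← sub_div, ← Finset.sum_sub_distrib, abs_div, abs_of_pos (pow_pos hr0 d),
        div_le_iff₀ (pow_pos hr0 d)]
      calc |∑ y ∈ bx d k, (G r (emb r y) - g (emb r y))|
          ≤ ∑ y ∈ bx d k, |G r (emb r y) - g (emb r y)| := Finset.abs_sum_le_sum_abs _ _
        _ ≤ ∑ _y ∈ bx d k, ε / (4 * c) := Finset.sum_le_sum fun y _ => g2 _
        _ = (2 * (k : ℝ) + 1) ^ d * (ε / (4 * c)) := by
            rw [Finset.sum_const, card_bx, nsmul_eq_mul]; push_cast; ring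
        _ ≤ ((2 * (R + 1) + 1) * r) ^ d * (ε / (4 * c)) := by
            gcongr
            nlinarith
        _ = ε / 4 * (r : ℝ) ^ d := by
            rw [mul_pow, ← hc]; field_simp
    rw [Real.dist_eq] at g1 ⊢
    calc |(∑ y ∈ bx d k, G r (emb r y)) / (r : ℝ) ^ d - ∫ x, g x| ≤ ε / 4 + ε / 2 := by
          refine (abs_sub_le _ ((∑ y ∈ bx d k, g (emb r y)) / (r : ℝ) ^ d) _).trans ?_
          linarith
      _ < ε := by linarith
  obtain ⟨N, hN⟩ := eventually_atTop.1 h4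
  exact ⟨N, fun r hr => hN r hr.le⟩

end

end Pool.Agent.W2helper11.MX
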