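import Mathlib
import Pool.Agent.W793.YM.Rebase

/-!
# The variance on the periodic lattice
-/

open Filter Topology MeasureTheory
open Pool.Agent.H906R3.YM hiding Pl
open Pool.Agent.W793.YM

namespace Pool.Agent.W2helper11.MX

set_option linter.unusedSectionVars false

noncomputable section

variable {d l : ℕ} [NeZero l]

/-- a form as a vector -/
def vF (f : Fm d l) : EuclideanSpace ℝ (Fin d × Fin d × St d l) :=
  WithLp.toLp 2 fun p => Real.sqrt (1 / 2) * f p.1 p.2.1 p.2.2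

/-- the norm of a form -/
def nF (f : Fm d l) : ℝ := ‖vF f‖

lemma nF_sq (f : Fm d l) : nF f ^ 2 = ipF f f := by
  unfold nF
  rw [EuclideanSpace.norm_sq_eq, Fintype.sum_prod_type]
  unfold ipF ip2 vF
  rw [Finset.mul_sum]
  refine Finset.sum_congr rfl fun j _ => ?_
  rw [Fintype.sum_prod_type, Finset.mul_sum]
  refine Finset.sum_congr rfl fun k _ => ?_
  rw [Finset.mul_sum]
  refine Finset.sum_congr rfl fun x _ => ?_
  simp only [Real.norm_eq_abs, sq_abs]
  rw [mul_pow, Real.sq_sqrt (by norm_num)]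
  ring

lemma nF_nonneg (f : Fm d l) : 0 ≤ nF f := norm_nonneg _

lemma nF_eq (f : Fm d l) : nF f = Real.sqrt (ipF f f) := by
  rw [← nF_sq, Real.sqrt_sq (nF_nonneg f)]

lemma vF_add (f g : Fm d l) : vF (f + g) = vF f + vF g := by
  ext p
  show Real.sqrt (1 / 2) * (f + g) p.1 p.2.1 p.2.2 = Real.sqrt (1 / 2) * f p.1 p.2.1 p.2.2 +
    Real.sqrt (1 / 2) * g p.1 p.2.1 p.2.2
  simp only [Pi.add_apply]; ring

lemma vF_sub (f g : Fm d l) : vF (f - g) = vF f - vF g := by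
  ext p
  show Real.sqrt (1 / 2) * (f - g) p.1 p.2.1 p.2.2 = Real.sqrt (1 / 2) * f p.1 p.2.1 p.2.2 -
    Real.sqrt (1 / 2) * g p.1 p.2.1 p.2.2
  simp only [Pi.sub_apply]; ring

lemma nF_add (f g : Fm d l) : nF (f + g) ≤ nF f + nF g := by
  unfold nF; rw [vF_add]; exact norm_add_le _ _

lemma nF_sub (f g : Fm d l) : nF (f - g) ≤ nF f + nF g := by
  unfold nF; rw [vF_sub]; exact norm_sub_le _ _

lemma nF_abs (f g : Fm d l) : |nF f - nF g| ≤ nF (f - g) := by
  unfold nF; rw [vF_sub]; exact abs_norm_sub_norm_le _ _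

/-- minus the Laplacian of a form -/
def lapF (u : Fm d l) : Fm d l := fun j k => lap (u j k)

/-- the walk on forms -/
def PF (K : ℕ) (f : Fm d l) : Fm d l := fun j k => Plk K (f j k)

/-- the potential of a form -/
def uF (K : ℕ) (f : Fm d l) : Fm d l := fun j k => uK K (f j k)

lemma ex_le {u : Fm d l} (hu : Asy u) : nF (d1 (ds2 u)) ≤ nF (lapF u) := by
  refine abs_le_of_sq_le_sq' ?_ (nF_nonneg _) |>.2
  rw [nF_sq, nF_sq]
  have h1 : lapF u = d1 (ds2 u) + cx u := by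
    funext j k
    show lap (u j k) = d1 (ds2 u) j k + (lap (u j k) - d1 (ds2 u) j k)
    abel
  have h2 : ipF (cx u) (d1 (ds2 u)) = 0 := cx_orth hu _
  have h3 : ipF (d1 (ds2 u)) (cx u) = 0 := by rw [ipF_comm]; exact h2
  have h4 : ipF (lapF u) (lapF u) = ipF (d1 (ds2 u)) (d1 (ds2 u)) + ipF (cx u) (cx u) := by
    rw [h1, ipF_add_left, ipF_comm (d1 (ds2 u)) (d1 (ds2 u) + cx u), ipF_add_left,
      ipF_comm (cx u) (d1 (ds2 u) + cx u), ipF_add_left, h2, h3]
    ring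
  rw [h4]
  have := ipF_self_nonneg (cx u)
  linarith

lemma PF_asy {f : Fm d l} (hf : Asy f) (K : ℕ) : Asy (PF K f) := fun j k => by
  unfold PF; rw [hf j k, Plk_neg]

lemma uF_asy {f : Fm d l} (hf : Asy f) (K : ℕ) : Asy (uF K f) := fun j k => by
  unfold uF; rw [hf j k, uK_neg]

lemma lapF_uF (K : ℕ) (f : Fm d l) : lapF (uF K f) = f - PF K f := by
  funext j k
  exact lap_uK K (f j k)

lemma TL_eq (K : ℕ) (f : Fm d l) : TL K f = d1 (ds2 (uF K f)) := rfl

/-- the walk is a contraction -/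
lemma Pl_sq (hd : 0 < d) (f : St d l → ℝ) : ∑ x, Pl f x ^ 2 ≤ ∑ x, f x ^ 2 := by
  have hd0 : (0 : ℝ) < d := by exact_mod_cast hd
  have h1 : ∀ x, Pl f x ^ 2 ≤ 1 / 2 * f x ^ 2 +
      (1 / (4 * d) : ℝ) * ∑ i, (f (x + eT i) ^ 2 + f (x - eT i) ^ 2) := by
    intro x
    rw [Pl_apply hd]
    obtain ⟨S, hS⟩ : ∃ S, S = ∑ i : Fin d, (f (x + eT i) + f (x - eT i)) := ⟨_, rfl⟩
    obtain ⟨Q, hQ⟩ : ∃ Q, Q = ∑ i : Fin d, (f (x + eT i) ^ 2 + f (x - eT i) ^ 2) := ⟨_, rfl⟩
    rw [← hS, ← hQ]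
    have h2 : S ^ 2 ≤ 2 * d * Q := by
      have h3 : S ^ 2 ≤ ((Finset.univ : Finset (Fin d)).card : ℝ) *
          ∑ i : Fin d, (f (x + eT i) + f (x - eT i)) ^ 2 := by
        rw [hS]; exact sq_sum_le_card_mul_sum_sq
      rw [Finset.card_univ, Fintype.card_fin] at h3
      have h4 : ∑ i : Fin d, (f (x + eT i) + f (x - eT i)) ^ 2 ≤ 2 * Q := by
        rw [hQ, Finset.mul_sum]
        refine Finset.sum_le_sum fun i _ => ?_
        nlinarith [sq_nonneg (f (x + eT i) - f (x - eT i))]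
      nlinarith
    -- convexity
    have h5 : (1 / 2 * f x + 1 / (4 * d) * S) ^ 2 ≤ 1 / 2 * f x ^ 2 + 1 / 2 * (1 / (2 * d) * S) ^ 2 := by
      have e : 1 / (4 * (d : ℝ)) * S = 1 / 2 * (1 / (2 * d) * S) := by field_simp; ring
      rw [e]
      nlinarith [sq_nonneg (f x - 1 / (2 * d) * S)]
    refine h5.trans ?_
    have h6 : 1 / 2 * (1 / (2 * (d : ℝ)) * S) ^ 2 ≤ 1 / (4 * d) * Q := by
      have e : 1 / 2 * (1 / (2 * (d : ℝ)) * S) ^ 2 = 1 / (8 * d ^ 2) * S ^ 2 := by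
        field_simp; ring
      rw [e]
      calc 1 / (8 * (d : ℝ) ^ 2) * S ^ 2 ≤ 1 / (8 * d ^ 2) * (2 * d * Q) := by gcongr
        _ = 1 / (4 * d) * Q := by field_simp; ring
    linarith
  calc ∑ x, Pl f x ^ 2 ≤ ∑ x, (1 / 2 * f x ^ 2 +
      (1 / (4 * d) : ℝ) * ∑ i, (f (x + eT i) ^ 2 + f (x - eT i) ^ 2)) :=
        Finset.sum_le_sum fun x _ => h1 x
    _ = ∑ x, f x ^ 2 := by
        rw [Finset.sum_add_distrib, ← Finset.mul_sum, ← Finset.mul_sum, Finset.sum_comm]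
        have h2 : ∀ i : Fin d, ∑ x, (f (x + eT i) ^ 2 + f (x - eT i) ^ 2) = 2 * ∑ x, f x ^ 2 := by
          intro i
          rw [Finset.sum_add_distrib, sum_shift (eT i) fun x => f x ^ 2]
          have h3 : ∑ x, f (x - eT i) ^ 2 = ∑ x, f x ^ 2 := by
            have := sum_shift (-eT i) fun x : St d l => f x ^ 2
            simpa only [← sub_eq_add_neg] using this
          rw [h3]; ring
        simp only [h2, Finset.sum_const, Finset.card_univ, Fintype.card_fin, nsmul_eq_mul]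
        field_simp
        ring

lemma Plk_sq (hd : 0 < d) (K : ℕ) (f : St d l → ℝ) : ∑ x, Plk K f x ^ 2 ≤ ∑ x, f x ^ 2 := by
  induction K with
  | zero => exact le_rfl
  | succ K ih => rw [Plk_succ]; exact (Pl_sq hd _).trans ih

lemma PF_le (hd : 0 < d) (K : ℕ) (f : Fm d l) : nF (PF K f) ≤ nF f := by
  refine abs_le_of_sq_le_sq' ?_ (nF_nonneg _) |>.2
  rw [nF_sq, nF_sq]
  unfold ipF ip2
  refine mul_le_mul_of_nonneg_left (Finset.sum_le_sum fun j _ => Finset.sum_le_sum fun k _ => ?_)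
    (by norm_num)
  simp only [← sq]
  exact Plk_sq hd K (f j k)

lemma TL_le (hd : 0 < d) {f : Fm d l} (hf : Asy f) (K : ℕ) : nF (TL K f) ≤ 2 * nF f := by
  rw [TL_eq]
  refine (ex_le (uF_asy hf K)).trans ?_
  rw [lapF_uF]
  have h1 := nF_sub f (PF K f)
  have h2 := PF_le hd K f
  linarith

lemma Plk_lap (K : ℕ) (f : St d l → ℝ) : Plk K (lap f) = lap (Plk K f) := by
  induction K with
  | zero => rfl
  | succ K ih => rw [Plk_succ, Plk_succ, ih, lap_Pl]

lemma uK_lap (K : ℕ) (f : St d l → ℝ) : uK K (lap f) = f - Plk K f := by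
  rw [← lap_uK]
  unfold uK
  rw [lap_smul, lap_sum]
  simp only [Plk_lap]

/-- comparison of the projection with an exact form -/
theorem TL_cmp (hd : 0 < d) {f u : Fm d l} (hf : Asy f) (hu : Asy u) (K : ℕ) :
    |nF (TL K f) - nF (d1 (ds2 u))| ≤ 3 * nF (f - lapF u) + nF (PF K f) := by
  obtain ⟨e, he⟩ : ∃ e, e = f - lapF u := ⟨_, rfl⟩
  have hea : Asy e := fun j k => by
    rw [he]
    show f j k - lap (u j k) = -(f k j - lap (u k j))
    rw [hf j k, hu j k, lap_neg]; abel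
  have h0 : f = e + lapF u := by rw [he]; abel
  have h1 : TL K f = TL K e + (d1 (ds2 u) - d1 (ds2 (PF K u))) := by
    conv_lhs => rw [h0]
    rw [map_add]
    congr 1
    have h2 : TL K (lapF u) = d1 (ds2 (u - PF K u)) := by
      rw [TL_eq]
      congr 2
      funext j k
      exact uK_lap K (u j k)
    rw [h2]
    funext j k
    unfold d1 ds2
    simp only [Pi.sub_apply, Dm_sub, Finset.sum_sub_distrib, Dp_sub]
    abel
  have h2 : nF (TL K f - d1 (ds2 u)) ≤ nF (TL K e) + nF (d1 (ds2 (PF K u))) := by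
    have h3 : TL K f - d1 (ds2 u) = TL K e - d1 (ds2 (PF K u)) := by rw [h1]; abel
    rw [h3]
    exact nF_sub _ _
  have h3 := TL_le hd hea K
  have h4 : nF (d1 (ds2 (PF K u))) ≤ nF (PF K f) + nF e := by
    refine (ex_le (PF_asy hu K)).trans ?_
    have h5 : lapF (PF K u) = PF K f - PF K e := by
      funext j k
      show lap (Plk K (u j k)) = Plk K (f j k) - Plk K (e j k)
      rw [← Plk_lap]
      have h6 : f j k = e j k + lap (u j k) := by
        rw [he]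
        show f j k = f j k - lap (u j k) + lap (u j k)
        abel
      rw [h6, Plk_add]
      abel
    rw [h5]
    refine (nF_sub _ _).trans ?_
    have := PF_le hd K e
    linarith
  rw [← he]
  refine (nF_abs _ _).trans (h2.trans ?_)
  linarith

/-- the norm of the walk at a late time -/
lemma PF_small {n : ℕ} (hd : 3 ≤ d) {K : ℕ} (hK : 1 ≤ K) (hKl : K ≤ l) (f : Fin n → Fm d l)
    (a : Fin n) : nF (PF K (f a)) ^ 2 ≤
      (2 + 2 * Real.sqrt (2 * d)) ^ d / Real.sqrt K ^ (d - 2) * N1 f ^ 2 := by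
  have h1 := N2_Pks hd hK hKl f
  have h2 : nF (PF K (f a)) ^ 2 ≤ N2 (Pks K f) := by
    rw [nF_sq]
    unfold ipF ip2 N2
    have h3 : ∀ b, 0 ≤ ∑ j, ∑ k, ∑ x, Pks K f b j k x ^ 2 := fun b => by positivity
    have h4 : ∑ j, ∑ k, ∑ x, Pks K f a j k x ^ 2 ≤ ∑ b, ∑ j, ∑ k, ∑ x, Pks K f b j k x ^ 2 :=
      Finset.single_le_sum (f := fun b => ∑ j, ∑ k, ∑ x, Pks K f b j k x ^ 2) (fun b _ => h3 b)
        (Finset.mem_univ a)
    have h5 : ∑ j, ∑ k, ∑ x, PF K (f a) j k x * PF K (f a) j k x =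
        ∑ j, ∑ k, ∑ x, Pks K f a j k x ^ 2 := by
      refine Finset.sum_congr rfl fun j _ => Finset.sum_congr rfl fun k _ =>
        Finset.sum_congr rfl fun x _ => ?_
      rw [sq]; rfl
    rw [h5]
    have := h3 a
    linarith
  have hK1 : (1 : ℝ) ≤ K := by exact_mod_cast hK
  have h3 : 0 ≤ N2 (Pks K f) := N2_nonneg _
  calc nF (PF K (f a)) ^ 2 ≤ 1 * N2 (Pks K f) := by rw [one_mul]; exact h2
    _ ≤ K * N2 (Pks K f) := mul_le_mul_of_nonneg_right hK1 h3
    _ ≤ _ := h1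

end

end Pool.Agent.W2helper11.MX
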