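import Mathlib
import Pool.Agent.W2helper11.MX.Tor
import Pool.Agent.W2helper11.MX.Riem
import Pool.Agent.W2helper11.MX.Cont

/-!
# Discretisation of forms
-/

open Filter Topology MeasureTheory
open Pool.Agent.H906R3.YM hiding Pl
open Pool.Agent.W793.YM

namespace Pool.Agent.W2helper11.MX

set_option linter.unusedSectionVars false

noncomputable section

variable {d l : ℕ} [NeZero l]

/-- integer coordinates relative to the centre `c` -/
def pt (c : ℕ) (z : St d l) : Fin d → ℤ := fun i => (wv z i : ℤ) - c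

/-- discretisation of a function -/
def dsc (r c : ℕ) (g : Eu d → ℝ) : St d l → ℝ := fun z => g (emb r (pt c z))

/-- the geometric conditions -/
structure Geo (R : ℝ) (r c l : ℕ) : Prop where
  r1 : 1 ≤ r
  R0 : 0 ≤ R
  lo : (R + 2) * r + 1 < c
  hi : c + (R + 2) * r + 1 < l

lemma emb_add (r : ℕ) (hr : 1 ≤ r) (y : Fin d → ℤ) (i : Fin d) :
    emb r (y + Pi.single i 1) = emb r y + (r : ℝ)⁻¹ • ue i := by
  have hr0 : (r : ℝ) ≠ 0 := by positivity
  ext j
  rw [emb_apply]
  show _ = emb r y j + ((r : ℝ)⁻¹ • ue i : Eu d) j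
  rw [emb_apply, PiLp.smul_apply, PiLp.single_apply]
  by_cases h : j = i
  · subst h
    simp only [Pi.add_apply, Pi.single_eq_same, Int.cast_add, Int.cast_one, if_true, smul_eq_mul]
    field_simp
  · simp [h]

/-- forward translation of a function -/
def cDp (r : ℕ) (i : Fin d) (g : Eu d → ℝ) : Eu d → ℝ := fun x => g (x + (r : ℝ)⁻¹ • ue i) - g x

/-- backward translation of a function -/
def cDm (r : ℕ) (i : Fin d) (g : Eu d → ℝ) : Eu d → ℝ := fun x => g (x - (r : ℝ)⁻¹ • ue i) - g x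

lemma ue_abs (i j : Fin d) (r : ℕ) (hr : 1 ≤ r) : |((r : ℝ)⁻¹ • ue i : Eu d) j| ≤ (r : ℝ)⁻¹ := by
  rw [PiLp.smul_apply, PiLp.single_apply]
  have : (0 : ℝ) ≤ (r : ℝ)⁻¹ := by positivity
  split_ifs <;> simp [abs_of_nonneg this]

lemma cDp_box {R : ℝ} {g : Eu d → ℝ} (h : InBox R g) {r : ℕ} (hr : 1 ≤ r) (i : Fin d) :
    InBox (R + (r : ℝ)⁻¹) (cDp r i g) := by
  intro x hx j
  have hr0 : (0 : ℝ) ≤ (r : ℝ)⁻¹ := by positivity
  by_cases h1 : g x = 0
  · have h2 : g (x + (r : ℝ)⁻¹ • ue i) ≠ 0 := by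
      intro h3; apply hx; unfold cDp; rw [h3, h1, sub_zero]
    have h3 := h _ h2 j
    have h4 := ue_abs i j r hr
    have h5 : x j = (x + (r : ℝ)⁻¹ • ue i) j - ((r : ℝ)⁻¹ • ue i : Eu d) j := by
      rw [PiLp.add_apply]; ring
    rw [h5]
    exact (abs_sub _ _).trans (add_le_add h3 h4)
  · exact (h x h1 j).trans (by linarith)

lemma cDm_box {R : ℝ} {g : Eu d → ℝ} (h : InBox R g) {r : ℕ} (hr : 1 ≤ r) (i : Fin d) :
    InBox (R + (r : ℝ)⁻¹) (cDm r i g) := by
  intro x hx j
  have hr0 : (0 : ℝ) ≤ (r : ℝ)⁻¹ := by positivity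
  by_cases h1 : g x = 0
  · have h2 : g (x - (r : ℝ)⁻¹ • ue i) ≠ 0 := by
      intro h3; apply hx; unfold cDm; rw [h3, h1, sub_zero]
    have h3 := h _ h2 j
    have h4 := ue_abs i j r hr
    have h5 : x j = (x - (r : ℝ)⁻¹ • ue i) j + ((r : ℝ)⁻¹ • ue i : Eu d) j := by
      rw [PiLp.sub_apply]; ring
    rw [h5]
    exact (abs_add_le _ _).trans (add_le_add h3 h4)
  · exact (h x h1 j).trans (by linarith)

lemma far_zero {R : ℝ} {g : Eu d → ℝ} (h : InBox R g) {x : Eu d} {i : Fin d} (hx : R < |x i|) :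
    g x = 0 := by
  by_contra h1
  exact absurd (h x h1 i) (not_le.2 hx)

lemma dsc_add {R : ℝ} {r c : ℕ} (hg : Geo R r c l) {g : Eu d → ℝ} (h : InBox (R + 1) g)
    (z : St d l) (i : Fin d) :
    (dsc r c g : St d l → ℝ) (z + eT i) = g (emb r (pt c z) + (r : ℝ)⁻¹ • ue i) := by
  have hr := hg.r1
  have hr0 : (0 : ℝ) < r := by exact_mod_cast hr
  have hr1 : (1 : ℝ) ≤ r := by exact_mod_cast hr
  have hR := hg.R0
  have hlo := hg.lo
  have hhi := hg.hi
  unfold dsc
  rw [← emb_add r hr]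
  by_cases h1 : wv z i + 1 < l
  · have h2 : pt c (z + eT i) = pt c z + Pi.single i 1 := by
      funext j
      unfold pt
      rw [wv_add h1]
      by_cases hj : j = i
      · subst hj
        simp only [Pi.add_apply, es_same, Pi.single_eq_same]
        push_cast; ring
      · simp only [Pi.add_apply, es_ne hj, Pi.single_eq_of_ne hj]
        push_cast; ring
    rw [h2]
  · have h2 : wv z i + 1 = l := by have := wv_lt z i; omega
    have h3 : (wv (z + eT i) i : ℕ) = 0 := by
      have h4 : (z + eT i : St d l) i = 0 := by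
        rw [Pi.add_apply]
        have h5 : z i = ((wv z i : ℕ) : ZMod l) := by
          unfold wv; rw [ZMod.natCast_zmod_val]
        rw [h5]
        have h6 : ((eT i : St d l) i) = 1 := by unfold eT; rw [Pi.single_eq_same]
        rw [h6]
        have h7 : ((wv z i : ℕ) : ZMod l) + 1 = ((wv z i + 1 : ℕ) : ZMod l) := by push_cast; rfl
        rw [h7, h2, ZMod.natCast_self]
      unfold wv; rw [h4, ZMod.val_zero]
    rw [far_zero h (i := i), far_zero h (i := i)]
    · rw [emb_apply, Pi.add_apply, Pi.single_eq_same, abs_div, abs_of_pos hr0, lt_div_iff₀ hr0]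
      have h4 : ((pt c z i + 1 : ℤ) : ℝ) = (l : ℝ) - c := by
        unfold pt
        have : ((wv z i : ℕ) : ℝ) + 1 = l := by exact_mod_cast h2
        push_cast
        linarith
      rw [h4]
      have := le_abs_self ((l : ℝ) - c)
      nlinarith
    · rw [emb_apply, abs_div, abs_of_pos hr0, lt_div_iff₀ hr0]
      have h4 : ((pt c (z + eT i) i : ℤ) : ℝ) = -c := by
        unfold pt; rw [h3]; push_cast; ring
      rw [h4, abs_neg, Nat.abs_cast]
      nlinarith

lemma dsc_sub {R : ℝ} {r c : ℕ} (hg : Geo R r c l) {g : Eu d → ℝ} (h : InBox (R + 1) g)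
    (z : St d l) (i : Fin d) :
    (dsc r c g : St d l → ℝ) (z - eT i) = g (emb r (pt c z) - (r : ℝ)⁻¹ • ue i) := by
  have hr := hg.r1
  have hr0 : (0 : ℝ) < r := by exact_mod_cast hr
  have hr1 : (1 : ℝ) ≤ r := by exact_mod_cast hr
  have hR := hg.R0
  have hlo := hg.lo
  have hhi := hg.hi
  obtain ⟨w, hw⟩ : ∃ w : St d l, w = z - eT i := ⟨_, rfl⟩
  have hz : z = w + eT i := by rw [hw, sub_add_cancel]
  rw [← hw, hz]
  unfold dsc
  by_cases h1 : wv w i + 1 < l
  · have h2 : pt c (w + eT i) = pt c w + Pi.single i 1 := by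
      funext j
      unfold pt
      rw [wv_add h1]
      by_cases hj : j = i
      · subst hj
        simp only [Pi.add_apply, es_same, Pi.single_eq_same]
        push_cast; ring
      · simp only [Pi.add_apply, es_ne hj, Pi.single_eq_of_ne hj]
        push_cast; ring
    rw [h2, emb_add r hr, add_sub_cancel_right]
  · have h2 : wv w i + 1 = l := by have := wv_lt w i; omega
    have h3 : (wv (w + eT i) i : ℕ) = 0 := by
      have h4 : (w + eT i : St d l) i = 0 := by
        rw [Pi.add_apply]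
        have h5 : w i = ((wv w i : ℕ) : ZMod l) := by
          unfold wv; rw [ZMod.natCast_zmod_val]
        rw [h5]
        have h6 : ((eT i : St d l) i) = 1 := by unfold eT; rw [Pi.single_eq_same]
        rw [h6]
        have h7 : ((wv w i : ℕ) : ZMod l) + 1 = ((wv w i + 1 : ℕ) : ZMod l) := by push_cast; rfl
        rw [h7, h2, ZMod.natCast_self]
      unfold wv; rw [h4, ZMod.val_zero]
    rw [far_zero h (i := i), far_zero h (i := i)]
    · rw [PiLp.sub_apply, emb_apply, PiLp.smul_apply, PiLp.single_apply, if_pos rfl]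
      have h4 : ((pt c (w + eT i) i : ℤ) : ℝ) / r - (r : ℝ)⁻¹ • (1 : ℝ) = -(c + 1) / r := by
        unfold pt; rw [h3]; push_cast
        rw [smul_eq_mul]
        field_simp
        ring
      rw [h4, abs_div, abs_neg, abs_of_pos hr0, lt_div_iff₀ hr0,
        abs_of_nonneg (by positivity : (0 : ℝ) ≤ (c : ℝ) + 1)]
      nlinarith
    · rw [emb_apply, abs_div, abs_of_pos hr0, lt_div_iff₀ hr0]
      have h4 : ((pt c w i : ℤ) : ℝ) = (l : ℝ) - 1 - c := by
        unfold pt
        have : ((wv w i : ℕ) : ℝ) + 1 = l := by exact_mod_cast h2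
        push_cast
        linarith
      rw [h4]
      have := le_abs_self ((l : ℝ) - 1 - c)
      nlinarith

lemma Dp_dsc {R : ℝ} {r c : ℕ} (hg : Geo R r c l) {g : Eu d → ℝ} (h : InBox (R + 1) g)
    (i : Fin d) : Dp i (dsc r c g : St d l → ℝ) = dsc r c (cDp r i g) := by
  funext z
  show (dsc r c g : St d l → ℝ) (z + eT i) - (dsc r c g : St d l → ℝ) z = _
  rw [dsc_add hg h]
  rfl

lemma Dm_dsc {R : ℝ} {r c : ℕ} (hg : Geo R r c l) {g : Eu d → ℝ} (h : InBox (R + 1) g)
    (i : Fin d) : Dm i (dsc r c g : St d l → ℝ) = dsc r c (cDm r i g) := by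
  funext z
  show (dsc r c g : St d l → ℝ) (z - eT i) - (dsc r c g : St d l → ℝ) z = _
  rw [dsc_sub hg h]
  rfl

lemma inv_le_one_nat {r : ℕ} (hr : 1 ≤ r) : (r : ℝ)⁻¹ ≤ 1 :=
  inv_le_one_of_one_le₀ (by exact_mod_cast hr)

/-- second differences -/
lemma Dp_Dm_dsc {R : ℝ} {r c : ℕ} (hg : Geo R r c l) {g : Eu d → ℝ} (h : InBox R g)
    (i j : Fin d) : Dp j (Dm i (dsc r c g : St d l → ℝ)) =
      dsc r c fun x => S2 g (ue j) (-ue i) (r : ℝ)⁻¹ x := by
  have h1 : InBox (R + 1) g := h.mono (by linarith)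
  have h2 : InBox (R + 1) (cDm r i g) :=
    (cDm_box h hg.r1 i).mono (by have := inv_le_one_nat hg.r1; linarith)
  rw [Dm_dsc hg h1, Dp_dsc hg h2]
  congr 1
  funext x
  unfold cDp cDm S2
  simp only [smul_neg, ← sub_eq_add_neg]
  ring

lemma lap_dsc {R : ℝ} {r c : ℕ} (hg : Geo R r c l) {g : Eu d → ℝ} (h : InBox R g) :
    lap (dsc r c g : St d l → ℝ) =
      dsc r c fun x => ∑ i, S2 g (ue i) (-ue i) (r : ℝ)⁻¹ x := by
  unfold lap
  funext z
  rw [Finset.sum_apply]
  show _ = ∑ i, S2 g (ue i) (-ue i) (r : ℝ)⁻¹ (emb r (pt c z))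
  refine Finset.sum_congr rfl fun i _ => ?_
  rw [← Dp_Dm, Dp_Dm_dsc hg h]
  rfl

/-! ### sums -/

lemma sum_dsc {R : ℝ} {r c : ℕ} (hg : Geo R r c l) {g : Eu d → ℝ} (h : InBox (R + 2) g) :
    ∑ z, (dsc r c g : St d l → ℝ) z = ∑' y : Fin d → ℤ, g (emb r y) := by
  have hr := hg.r1
  have hr0 : (0 : ℝ) < r := by exact_mod_cast hr
  have hlo := hg.lo
  have hhi := hg.hi
  obtain ⟨s, hs⟩ : ∃ s : Finset (Fin d → ℤ), s = Fintype.piFinset fun _ =>
    Finset.Ico (-(c : ℤ)) (l - c) := ⟨_, rfl⟩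
  have hms : ∀ y : Fin d → ℤ, y ∈ s ↔ ∀ i, -(c : ℤ) ≤ y i ∧ y i < l - c := by
    intro y
    rw [hs, Fintype.mem_piFinset]
    simp only [Finset.mem_Ico]
  have h1 : ∑' y : Fin d → ℤ, g (emb r y) = ∑ y ∈ s, g (emb r y) := by
    refine tsum_eq_sum fun y hy => ?_
    by_contra h2
    apply hy
    rw [hms]
    intro i
    have h3 := h _ h2 i
    rw [emb_apply, abs_div, abs_of_pos hr0, div_le_iff₀ hr0] at h3
    obtain ⟨h4, h5⟩ := abs_le.1 h3
    have h6 : -(c : ℝ) < y i := by linarith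
    have h7 : (y i : ℝ) < l - c := by linarith
    constructor
    · exact_mod_cast h6.le
    · exact_mod_cast h7
  rw [h1]
  refine Finset.sum_bij' (fun z _ => pt c z) (fun y _ => zt l (fun i => y i + c)) ?_ ?_ ?_ ?_ ?_
  · intro z _
    rw [hms]
    intro i
    unfold pt
    have := wv_lt z i
    constructor <;> omega
  · intro y _; exact Finset.mem_univ _
  · intro z _
    funext i
    unfold zt pt wv
    push_cast
    rw [sub_add_cancel, ZMod.natCast_zmod_val]
  · intro y hy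
    rw [hms] at hy
    funext i
    unfold pt
    have h2 := wv_zt (l := l) (z := fun i => y i + c) (fun i => by
      have := hy i
      constructor <;> omega) i
    rw [h2]
    ring
  · intro z _; rfl

end

end Pool.Agent.W2helper11.MX
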