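import Mathlib
import Pool.Agent.W2helper11.MX.Disc

/-!
# The limit of the variance
-/

open Filter Topology MeasureTheory
open Pool.Agent.H906R3.YM hiding Pl
open Pool.Agent.W793.YM

namespace Pool.Agent.W2helper11.MX

set_option linter.unusedSectionVars false

noncomputable section

variable {d l : ℕ} [NeZero l]

/-- the normalisation `r ^ (-d / 2)` -/
def kap (d r : ℕ) : ℝ := (Real.sqrt ((r : ℝ) ^ d))⁻¹

lemma kap_sq {r : ℕ} : kap d r ^ 2 = ((r : ℝ) ^ d)⁻¹ := by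
  unfold kap
  rw [inv_pow, Real.sq_sqrt (by positivity)]

lemma kap_nonneg (r : ℕ) : 0 ≤ kap d r := by unfold kap; positivity

/-- discretisation of a form -/
def fD (r c : ℕ) (g : Fin d → Fin d → Eu d → ℝ) : Fm d l := fun j k => kap d r • dsc r c (g j k)

lemma nF_fD {R : ℝ} {r c : ℕ} (hg : Geo R r c l) {G : Fin d → Fin d → Eu d → ℝ}
    (hG : ∀ j k, InBox (R + 2) (G j k)) : nF (fD r c G : Fm d l) ^ 2 =
      1 / 2 * ∑ j, ∑ k, (∑' y : Fin d → ℤ, G j k (emb r y) ^ 2) / (r : ℝ) ^ d := by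
  rw [nF_sq]
  unfold ipF ip2 fD
  congr 1
  refine Finset.sum_congr rfl fun j _ => Finset.sum_congr rfl fun k _ => ?_
  have h1 : ∀ z : St d l, (kap d r • dsc r c (G j k)) z * (kap d r • dsc r c (G j k)) z =
      ((r : ℝ) ^ d)⁻¹ * dsc r c (fun x => G j k x ^ 2) z := by
    intro z
    rw [← kap_sq]
    show (kap d r * G j k _) * (kap d r * G j k _) = _ * G j k _ ^ 2
    ring
  simp only [h1]
  rw [← Finset.mul_sum, sum_dsc hg (g := fun x => G j k x ^ 2) (fun x hx => hG j k x fun h0 => hx (by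
    simp only [h0]; norm_num)), div_eq_inv_mul]

lemma sq_unif {G : ℕ → Eu d → ℝ} {g : Eu d → ℝ} {M : ℝ} (hb : ∀ x, |g x| ≤ M)
    (hu : ∀ ε : ℝ, 0 < ε → ∀ᶠ r in atTop, ∀ x, |G r x - g x| ≤ ε) (ε : ℝ) (hε : 0 < ε) :
    ∀ᶠ r in atTop, ∀ x, |G r x ^ 2 - g x ^ 2| ≤ ε := by
  have hM : 0 ≤ M := (abs_nonneg _).trans (hb 0)
  have h1 : 0 < min 1 (ε / (2 * M + 1)) := by positivity
  filter_upwards [hu _ h1] with r hr x
  have h2 := hr x
  have h3 : |G r x - g x| ≤ 1 := h2.trans (min_le_left _ _)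
  have h4 : |G r x - g x| ≤ ε / (2 * M + 1) := h2.trans (min_le_right _ _)
  have h5 : G r x ^ 2 - g x ^ 2 = (G r x - g x) * (G r x - g x + 2 * g x) := by ring
  rw [h5, abs_mul]
  have h6 : |G r x - g x + 2 * g x| ≤ 2 * M + 1 := by
    refine (abs_add_le _ _).trans ?_
    rw [abs_mul, abs_two]
    have := hb x
    linarith
  calc |G r x - g x| * |G r x - g x + 2 * g x| ≤ ε / (2 * M + 1) * (2 * M + 1) :=
        mul_le_mul h4 h6 (abs_nonneg _) (by positivity)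
    _ = ε := by field_simp

/-- Riemann sums of squares -/
lemma riem_sq {R : ℝ} (hR : 0 < R) {g : Eu d → ℝ} (h : InBox R g) (hg : Continuous g)
    (hs : HasCompactSupport g) {G : ℕ → Eu d → ℝ} (hG : ∀ᶠ r in atTop, InBox R (G r))
    (hu : ∀ ε : ℝ, 0 < ε → ∀ᶠ r in atTop, ∀ x, |G r x - g x| ≤ ε) :
    Tendsto (fun r : ℕ => (∑' y : Fin d → ℤ, G r (emb r y) ^ 2) / (r : ℝ) ^ d) atTop
      (𝓝 (∫ x, g x ^ 2)) := by
  obtain ⟨M, -, hM⟩ := bdd_of hg hs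
  refine riem_unif (g := fun x => g x ^ 2) (G := fun r x => G r x ^ 2) hR
    (fun x hx => h x fun h0 => hx (by simp only [h0]; norm_num)) (hg.pow 2) ?_ ?_
  · filter_upwards [hG] with r hr x hx
    exact hr x fun h0 => hx (by simp only [h0]; norm_num)
  · exact sq_unif hM hu

/-- the discretised Laplacian -/
def cLap (r : ℕ) (g : Eu d → ℝ) (x : Eu d) : ℝ :=
  (r : ℝ) ^ 2 * ∑ i, S2 g (ue i) (-ue i) (r : ℝ)⁻¹ x

/-- the discretised exact part -/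
def cE (r : ℕ) (u : Fin d → Fin d → Eu d → ℝ) (j k : Fin d) (x : Eu d) : ℝ :=
  (r : ℝ) ^ 2 * ∑ i, (S2 (u i k) (ue j) (-ue i) (r : ℝ)⁻¹ x - S2 (u i j) (ue k) (-ue i) (r : ℝ)⁻¹ x)

lemma S2_box {R : ℝ} {g : Eu d → ℝ} (h : InBox R g) {r : ℕ} (hr : 1 ≤ r) (i j : Fin d) :
    InBox (R + 2) (fun x => S2 g (ue j) (-ue i) (r : ℝ)⁻¹ x) := by
  have h1 := inv_le_one_nat hr
  have h2 := cDp_box (cDm_box h hr i) hr j
  have h3 : (fun x => S2 g (ue j) (-ue i) (r : ℝ)⁻¹ x) = cDp r j (cDm r i g) := by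
    funext x
    unfold cDp cDm S2
    simp only [smul_neg, ← sub_eq_add_neg]
    ring
  rw [h3]
  exact h2.mono (by linarith)

lemma InBox.sum {R : ℝ} {ι : Type*} {s : Finset ι} {g : ι → Eu d → ℝ}
    (h : ∀ i ∈ s, InBox R (g i)) : InBox R fun x => ∑ i ∈ s, g i x := by
  intro x hx
  obtain ⟨i, hi, hi2⟩ := Finset.exists_ne_zero_of_sum_ne_zero hx
  exact h i hi x hi2

lemma InBox.mul {R : ℝ} {g : Eu d → ℝ} (h : InBox R g) (t : ℝ) : InBox R fun x => t * g x :=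
  fun x hx => h x (right_ne_zero_of_mul hx)

lemma InBox.sub {R : ℝ} {g g' : Eu d → ℝ} (h : InBox R g) (h' : InBox R g') :
    InBox R fun x => g x - g' x := fun x hx => by
  by_cases h1 : g x = 0
  · exact h' x fun h2 => hx (by simp only [h1, h2, sub_zero])
  · exact h x h1

lemma cLap_box {R : ℝ} {g : Eu d → ℝ} (h : InBox R g) {r : ℕ} (hr : 1 ≤ r) :
    InBox (R + 2) (cLap r g) :=
  (InBox.sum fun i _ => S2_box h hr i i).mul _

lemma cE_box {R : ℝ} {u : Fin d → Fin d → Eu d → ℝ} (h : ∀ j k, InBox R (u j k)) {r : ℕ}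
    (hr : 1 ≤ r) (j k : Fin d) : InBox (R + 2) (cE r u j k) :=
  (InBox.sum fun i _ => (S2_box (h i k) hr i j).sub (S2_box (h i j) hr i k)).mul _

lemma sum_unif {ι : Type*} (s : Finset ι) {A : ℕ → ι → Eu d → ℝ} {a : ι → Eu d → ℝ}
    (h : ∀ i ∈ s, ∀ ε : ℝ, 0 < ε → ∀ᶠ r in atTop, ∀ x, |A r i x - a i x| ≤ ε) (ε : ℝ)
    (hε : 0 < ε) : ∀ᶠ r in atTop, ∀ x, |∑ i ∈ s, A r i x - ∑ i ∈ s, a i x| ≤ ε := by
  have h0 : 0 < ε / (s.card + 1) := by positivity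
  have h1 : ∀ᶠ r in atTop, ∀ i ∈ s, ∀ x, |A r i x - a i x| ≤ ε / (s.card + 1) :=
    (Filter.eventually_all_finset s).2 fun i hi => h i hi _ h0
  filter_upwards [h1] with r hr x
  rw [← Finset.sum_sub_distrib]
  calc |∑ i ∈ s, (A r i x - a i x)| ≤ ∑ i ∈ s, |A r i x - a i x| := Finset.abs_sum_le_sum_abs _ _
    _ ≤ ∑ _i ∈ s, ε / (s.card + 1) := Finset.sum_le_sum fun i hi => hr i hi x
    _ = s.card * (ε / (s.card + 1)) := by rw [Finset.sum_const, nsmul_eq_mul]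
    _ ≤ (s.card + 1) * (ε / (s.card + 1)) := by gcongr; linarith
    _ = ε := by field_simp

lemma cLap_unif {u : Eu d → ℝ} (hu : Sc u) (ε : ℝ) (hε : 0 < ε) : ∀ᶠ r : ℕ in atTop, ∀ x,
    |cLap r u x - -∑ i, D2 u (ue i) (ue i) x| ≤ ε := by
  have h1 := sum_unif (Finset.univ : Finset (Fin d))
    (A := fun r i x => (r : ℝ) ^ 2 * S2 u (ue i) (-ue i) (r : ℝ)⁻¹ x)
    (a := fun i x => D2 u (ue i) (-ue i) x)
    (fun i _ ε hε => S2_unif hu.sm hu.cs (ue i) (-ue i) hε) ε hε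
  filter_upwards [h1] with r hr x
  have h2 := hr x
  unfold cLap
  rw [Finset.mul_sum]
  simp only [D2_neg, Finset.sum_neg_distrib] at h2
  exact h2

lemma cE_unif {u : Fin d → Fin d → Eu d → ℝ} (hu : ∀ j k, Sc (u j k)) (j k : Fin d) (ε : ℝ)
    (hε : 0 < ε) : ∀ᶠ r : ℕ in atTop, ∀ x, |cE r u j k x - Ecl u j k x| ≤ ε := by
  have h1 := sum_unif (Finset.univ : Finset (Fin d))
    (A := fun r i x => (r : ℝ) ^ 2 * S2 (u i k) (ue j) (-ue i) (r : ℝ)⁻¹ x -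
      (r : ℝ) ^ 2 * S2 (u i j) (ue k) (-ue i) (r : ℝ)⁻¹ x)
    (a := fun i x => D2 (u i k) (ue j) (-ue i) x - D2 (u i j) (ue k) (-ue i) x)
    (fun i _ ε hε => by
      filter_upwards [S2_unif (hu i k).sm (hu i k).cs (ue j) (-ue i) (half_pos hε),
        S2_unif (hu i j).sm (hu i j).cs (ue k) (-ue i) (half_pos hε)] with r h1 h2 x
      have h3 := h1 x
      have h4 := h2 x
      rw [abs_le] at h3 h4 ⊢
      constructor <;> linarith [h3.1, h3.2, h4.1, h4.2]) ε hε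
  filter_upwards [h1] with r hr x
  have h2 := hr x
  unfold cE Ecl
  rw [Finset.mul_sum]
  simp only [D2_neg] at h2
  have e1 : ∑ i, ((r : ℝ) ^ 2 * (S2 (u i k) (ue j) (-ue i) (r : ℝ)⁻¹ x -
      S2 (u i j) (ue k) (-ue i) (r : ℝ)⁻¹ x)) = ∑ i, ((r : ℝ) ^ 2 *
        S2 (u i k) (ue j) (-ue i) (r : ℝ)⁻¹ x - (r : ℝ) ^ 2 *
          S2 (u i j) (ue k) (-ue i) (r : ℝ)⁻¹ x) :=
    Finset.sum_congr rfl fun i _ => by ring
  have e2 : ∑ i, (-(D2 (u i k) (ue j) (ue i) x) + D2 (u i j) (ue k) (ue i) x) =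
      ∑ i, (-(D2 (u i k) (ue j) (ue i) x) - -(D2 (u i j) (ue k) (ue i) x)) :=
    Finset.sum_congr rfl fun i _ => by ring
  rw [e1, e2]
  exact h2

/-- the Laplacian of the discretised form -/
lemma lapF_fD {R : ℝ} {r c : ℕ} (hg : Geo R r c l) {u : Fin d → Fin d → Eu d → ℝ}
    (h : ∀ j k, InBox R (u j k)) :
    lapF ((r : ℝ) ^ 2 • (fD r c u : Fm d l)) = fD r c fun j k => cLap r (u j k) := by
  funext j k
  show lap ((r : ℝ) ^ 2 • (kap d r • dsc r c (u j k))) = kap d r • dsc r c (cLap r (u j k))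
  rw [lap_smul, lap_smul, lap_dsc hg (h j k), smul_comm]
  congr 1

/-- the exact part of the Laplacian of the discretised form -/
lemma ex_fD {R : ℝ} {r c : ℕ} (hg : Geo R r c l) {u : Fin d → Fin d → Eu d → ℝ}
    (h : ∀ j k, InBox R (u j k)) :
    d1 (ds2 ((r : ℝ) ^ 2 • (fD r c u : Fm d l))) = fD r c (cE r u) := by
  funext j k z
  unfold d1 ds2
  rw [Dp_sum, Dp_sum]
  have h1 : ∀ a b i j : Fin d, Dp j (Dm i (((r : ℝ) ^ 2 • (fD r c u : Fm d l)) a b)) =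
      ((r : ℝ) ^ 2 * kap d r) • dsc r c fun x => S2 (u a b) (ue j) (-ue i) (r : ℝ)⁻¹ x := by
    intro a b i j
    show Dp j (Dm i ((r : ℝ) ^ 2 • (kap d r • dsc r c (u a b)))) = _
    rw [Dm_smul, Dp_smul, Dm_smul, Dp_smul, Dp_Dm_dsc hg (h a b), smul_smul]
  simp only [h1]
  rw [Pi.sub_apply, Finset.sum_apply, Finset.sum_apply, ← Finset.sum_sub_distrib]
  show _ = kap d r * ((r : ℝ) ^ 2 * ∑ i, (S2 (u i k) (ue j) (-ue i) (r : ℝ)⁻¹ (emb r (pt c z)) -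
    S2 (u i j) (ue k) (-ue i) (r : ℝ)⁻¹ (emb r (pt c z))))
  rw [Finset.mul_sum, Finset.mul_sum]
  refine Finset.sum_congr rfl fun i _ => ?_
  show ((r : ℝ) ^ 2 * kap d r) * S2 (u i k) (ue j) (-ue i) (r : ℝ)⁻¹ (emb r (pt c z)) -
    ((r : ℝ) ^ 2 * kap d r) * S2 (u i j) (ue k) (-ue i) (r : ℝ)⁻¹ (emb r (pt c z)) = _
  ring

lemma fD_sub (r c : ℕ) (g g' : Fin d → Fin d → Eu d → ℝ) :
    (fD r c g : Fm d l) - fD r c g' = fD r c fun j k x => g j k x - g' j k x := by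
  funext j k z
  show kap d r * g j k (emb r (pt c z)) - kap d r * g' j k (emb r (pt c z)) =
    kap d r * (g j k (emb r (pt c z)) - g' j k (emb r (pt c z)))
  ring

lemma fD_asy (r c : ℕ) {g : Fin d → Fin d → Eu d → ℝ} (h : ∀ j k x, g j k x = -g k j x) :
    Asy (fD r c g : Fm d l) := by
  intro j k
  funext z
  show kap d r * g j k _ = -(kap d r * g k j _)
  rw [h j k]
  ring

end

end Pool.Agent.W2helper11.MX
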