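import Mathlib
import Pool.Agent.W2helper11.MX.VLim

/-!
# The limit of the variance: main statement
-/

open Filter Topology MeasureTheory
open Pool.Agent.H906R3.YM hiding Pl
open Pool.Agent.W793.YM

namespace Pool.Agent.W2helper11.MX

set_option linter.unusedSectionVars false

noncomputable section

variable {n d : ℕ}

/-- the sum of the absolute values of the discretised forms -/
lemma N1_fD {φ : Fin n → Fin d → Fin d → Eu d → ℝ} (hφ : ∀ a j k, Sc (φ a j k)) :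
    ∃ (C R : ℝ), 0 < C ∧ 0 < R ∧ (∀ a j k, InBox R (φ a j k)) ∧
      ∀ (r c l : ℕ) [NeZero l], Geo R r c l →
        N1 (fun a => (fD r c (φ a) : Fm d l)) ≤ C * Real.sqrt ((r : ℝ) ^ d) := by
  have hex : ∀ a j k, ∃ R : ℝ, 0 < R ∧ InBox R (φ a j k) := fun a j k => exists_box (hφ a j k).cs
  choose R0 hR0 hR1 using hex
  obtain ⟨R, hR⟩ : ∃ R : ℝ, R = 1 + ∑ a, ∑ j, ∑ k, R0 a j k := ⟨_, rfl⟩
  have hle : ∀ a j k, R0 a j k ≤ R := by
    intro a j k
    have h1 : R0 a j k ≤ ∑ k, R0 a j k :=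
      Finset.single_le_sum (f := fun k => R0 a j k) (fun k _ => (hR0 a j k).le) (Finset.mem_univ k)
    have h2 : ∑ k, R0 a j k ≤ ∑ j, ∑ k, R0 a j k :=
      Finset.single_le_sum (f := fun j => ∑ k, R0 a j k)
        (fun j _ => Finset.sum_nonneg fun k _ => (hR0 a j k).le) (Finset.mem_univ j)
    have h3 : ∑ j, ∑ k, R0 a j k ≤ ∑ a, ∑ j, ∑ k, R0 a j k :=
      Finset.single_le_sum (f := fun a => ∑ j, ∑ k, R0 a j k)
        (fun a _ => Finset.sum_nonneg fun j _ => Finset.sum_nonneg fun k _ => (hR0 a j k).le)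
        (Finset.mem_univ a)
    rw [hR]; linarith
  have hRp : 0 < R := by
    rw [hR]
    have : 0 ≤ ∑ a, ∑ j, ∑ k, R0 a j k := Finset.sum_nonneg fun a _ =>
      Finset.sum_nonneg fun j _ => Finset.sum_nonneg fun k _ => (hR0 a j k).le
    linarith
  have hbox : ∀ a j k, InBox R (φ a j k) := fun a j k => (hR1 a j k).mono (hle a j k)
  have hex2 : ∀ a j k, ∃ M : ℝ, 0 ≤ M ∧ ∀ x, |φ a j k x| ≤ M := fun a j k =>
    bdd_of (hφ a j k).sm.continuous (hφ a j k).cs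
  choose M hM0 hM using hex2
  obtain ⟨C, hC⟩ : ∃ C : ℝ, C = 1 + ∑ a, ∑ j, ∑ k, (2 * (R + 1) + 1) ^ d * M a j k := ⟨_, rfl⟩
  have hS0 : 0 ≤ ∑ a, ∑ j, ∑ k, (2 * (R + 1) + 1) ^ d * M a j k :=
    Finset.sum_nonneg fun a _ => Finset.sum_nonneg fun j _ => Finset.sum_nonneg fun k _ => by
      have := hM0 a j k; positivity
  refine ⟨C, R, by rw [hC]; linarith, hRp, hbox, fun r c l _ hg => ?_⟩
  have hr := hg.r1
  have hr0 : (0 : ℝ) < r := by exact_mod_cast hr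
  have hr1 : (1 : ℝ) ≤ r := by exact_mod_cast hr
  have hk : kap d r * (r : ℝ) ^ d = Real.sqrt ((r : ℝ) ^ d) := by
    unfold kap
    rw [inv_mul_eq_div, div_eq_iff (by positivity), Real.mul_self_sqrt (by positivity)]
  have h1 : ∀ a j k, ∑ z, |(fD r c (φ a) : Fm d l) j k z| ≤
      Real.sqrt ((r : ℝ) ^ d) * ((2 * (R + 1) + 1) ^ d * M a j k) := by
    intro a j k
    have e1 : ∀ z : St d l, |(fD r c (φ a) : Fm d l) j k z| =
        kap d r * dsc r c (fun x => |φ a j k x|) z := by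
      intro z
      show |kap d r * φ a j k _| = kap d r * |φ a j k _|
      rw [abs_mul, abs_of_nonneg (kap_nonneg r)]
    simp only [e1]
    have hb : InBox R (fun x => |φ a j k x|) := fun x hx => hbox a j k x fun h0 => hx (by
      simp only [h0, abs_zero])
    rw [← Finset.mul_sum, sum_dsc hg (hb.mono (by linarith))]
    obtain ⟨q, hq⟩ : ∃ q : ℕ, q = ⌈R * r⌉₊ := ⟨_, rfl⟩
    have hq1 : R * r ≤ q := by rw [hq]; exact Nat.le_ceil _
    have hq2 : (q : ℝ) ≤ (R + 1) * r := by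
      have := Nat.ceil_lt_add_one (show 0 ≤ R * r by positivity)
      rw [← hq] at this
      nlinarith
    rw [tsum_emb hb hr hq1]
    have hm := hM0 a j k
    calc kap d r * ∑ y ∈ bx d q, |φ a j k (emb r y)|
        ≤ kap d r * ∑ _y ∈ bx d q, M a j k :=
          mul_le_mul_of_nonneg_left (Finset.sum_le_sum fun y _ => hM a j k _) (kap_nonneg r)
      _ = kap d r * ((2 * (q : ℝ) + 1) ^ d * M a j k) := by
          rw [Finset.sum_const, card_bx, nsmul_eq_mul]; push_cast; ring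
      _ ≤ kap d r * (((2 * (R + 1) + 1) * r) ^ d * M a j k) := by
          refine mul_le_mul_of_nonneg_left (mul_le_mul_of_nonneg_right
            (pow_le_pow_left₀ (by positivity) (by nlinarith) d) hm) (kap_nonneg r)
      _ = _ := by rw [← hk, mul_pow]; ring
  calc N1 (fun a => (fD r c (φ a) : Fm d l)) ≤
        ∑ a, ∑ j, ∑ k, Real.sqrt ((r : ℝ) ^ d) * ((2 * (R + 1) + 1) ^ d * M a j k) :=
        Finset.sum_le_sum fun a _ => Finset.sum_le_sum fun j _ => Finset.sum_le_sum fun k _ =>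
          h1 a j k
    _ = Real.sqrt ((r : ℝ) ^ d) * ∑ a, ∑ j, ∑ k, (2 * (R + 1) + 1) ^ d * M a j k := by
        simp only [Finset.mul_sum]
    _ ≤ Real.sqrt ((r : ℝ) ^ d) * C := by
        refine mul_le_mul_of_nonneg_left ?_ (Real.sqrt_nonneg _)
        rw [hC]; linarith
    _ = _ := mul_comm _ _

/-- powers of the spacing -/
lemma pow_aux (hd : 3 ≤ d) {r K : ℕ} (hr : 1 ≤ r) (hK : r ^ 7 ≤ K) :
    (r : ℝ) ^ d / Real.sqrt K ^ (d - 2) ≤ (Real.sqrt r)⁻¹ := by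
  have hr0 : (0 : ℝ) < r := by exact_mod_cast hr
  have hr1 : (1 : ℝ) ≤ r := by exact_mod_cast hr
  obtain ⟨s, hs⟩ : ∃ s, s = Real.sqrt r := ⟨_, rfl⟩
  have hs1 : 1 ≤ s := by rw [hs]; exact Real.one_le_sqrt.2 hr1
  have hs2 : s ^ 2 = r := by rw [hs]; exact Real.sq_sqrt hr0.le
  have hK' : s ^ 7 ≤ Real.sqrt K := by
    refine Real.le_sqrt_of_sq_le ?_
    have h1 : ((r ^ 7 : ℕ) : ℝ) ≤ K := by exact_mod_cast hK
    calc (s ^ 7) ^ 2 = (s ^ 2) ^ 7 := by ring
      _ = ((r ^ 7 : ℕ) : ℝ) := by rw [hs2]; push_cast; rfl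
      _ ≤ K := h1
  have hs0 : 0 < s := by linarith
  rw [← hs, ← hs2, ← pow_mul]
  obtain ⟨e, rfl⟩ : ∃ e, d = e + 3 := ⟨d - 3, by omega⟩
  have h2 : (s ^ 7) ^ (e + 3 - 2) ≤ Real.sqrt K ^ (e + 3 - 2) :=
    pow_le_pow_left₀ (by positivity) hK' _
  have h3 : (e + 3 - 2 : ℕ) = e + 1 := by omega
  rw [h3] at h2 ⊢
  calc s ^ (2 * (e + 3)) / Real.sqrt K ^ (e + 1) ≤ s ^ (2 * (e + 3)) / (s ^ 7) ^ (e + 1) := by
        gcongr
    _ ≤ s⁻¹ := by
        rw [div_le_iff₀ (by positivity), ← pow_mul, inv_mul_eq_div, le_div_iff₀ hs0, ← pow_succ]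
        exact pow_le_pow_right₀ hs1 (by omega)

/-- the limit of the norm of the projection, one colour -/
lemma one_lim (hd : 3 ≤ d) {φ : Fin n → Fin d → Fin d → Eu d → ℝ} (hφ : ∀ a j k, Sc (φ a j k))
    (ha : ∀ a j k x, φ a j k x = -φ a k j x) (a : Fin n) {δ : ℝ} (hδ : 0 < δ) :
    ∃ R : ℝ, 0 < R ∧ ∀ᶠ r : ℕ in atTop, ∀ (c l K : ℕ) [NeZero l], Geo R r c l → r ^ 7 ≤ K →
      K ≤ l → |nF (TL K (fD r c (φ a) : Fm d l)) - Real.sqrt (sgm (φ a))| ≤ δ := by
  have hd0 : 0 < d := by omega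
  obtain ⟨C, R1, hC, hR1, hbox1, hN1⟩ := N1_fD hφ
  obtain ⟨η, hη⟩ : ∃ η : ℝ, η = δ / 8 := ⟨_, rfl⟩
  have hη0 : 0 < η := by rw [hη]; positivity
  obtain ⟨u, hu1, hu2, hu3, hu4⟩ := cont_approx (by omega : 1 ≤ d) (hφ a) (ha a) hη0
  have hex : ∀ j k, ∃ R : ℝ, 0 < R ∧ InBox R (u j k) := fun j k => exists_box (hu1 j k).cs
  choose R0 hR0 hR0b using hex
  obtain ⟨R, hR⟩ : ∃ R : ℝ, R = R1 + ∑ j, ∑ k, R0 j k := ⟨_, rfl⟩
  have hRs : 0 ≤ ∑ j, ∑ k, R0 j k :=
    Finset.sum_nonneg fun j _ => Finset.sum_nonneg fun k _ => (hR0 j k).le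
  have hRp : 0 < R := by rw [hR]; linarith
  have hbu : ∀ j k, InBox R (u j k) := by
    intro j k
    refine (hR0b j k).mono ?_
    have h1 : R0 j k ≤ ∑ k, R0 j k :=
      Finset.single_le_sum (f := fun k => R0 j k) (fun k _ => (hR0 j k).le) (Finset.mem_univ k)
    have h2 : ∑ k, R0 j k ≤ ∑ j, ∑ k, R0 j k :=
      Finset.single_le_sum (f := fun j => ∑ k, R0 j k)
        (fun j _ => Finset.sum_nonneg fun k _ => (hR0 j k).le) (Finset.mem_univ j)
    rw [hR]; linarith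
  have hbφ : ∀ j k, InBox R (φ a j k) := fun j k => (hbox1 a j k).mono (by rw [hR]; linarith)
  -- the two Riemann sums
  obtain ⟨E1, hE1⟩ : ∃ E1 : ℕ → ℝ, E1 = fun r => 1 / 2 * ∑ j, ∑ k, (∑' y : Fin d → ℤ,
    (φ a j k (emb r y) - cLap r (u j k) (emb r y)) ^ 2) / (r : ℝ) ^ d := ⟨_, rfl⟩
  obtain ⟨E2, hE2⟩ : ∃ E2 : ℕ → ℝ, E2 = fun r => 1 / 2 * ∑ j, ∑ k, (∑' y : Fin d → ℤ,
    cE r u j k (emb r y) ^ 2) / (r : ℝ) ^ d := ⟨_, rfl⟩
  have hge : ∀ᶠ r : ℕ in atTop, 1 ≤ r := eventually_ge_atTop 1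
  have hL1 : Tendsto E1 atTop (𝓝 (1 / 2 * ∑ j, ∑ k,
      ∫ x, (φ a j k x + ∑ i, D2 (u j k) (ue i) (ue i) x) ^ 2)) := by
    rw [hE1]
    refine Tendsto.const_mul _ (tendsto_finsetSum _ fun j _ => tendsto_finsetSum _ fun k _ => ?_)
    have hcont : Continuous fun x => φ a j k x + ∑ i, D2 (u j k) (ue i) (ue i) x :=
      (hφ a j k).sm.continuous.add (continuous_finsetSum _ fun i _ =>
        (D2_contDiff (hu1 j k).sm _ _).continuous)
    have hDs : ∀ (g : Eu d → ℝ) (i : Fin d), InBox R g → InBox R (D2 g (ue i) (ue i)) := by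
      intro g i hgb x hx i'
      by_contra hlt
      rw [not_le] at hlt
      apply hx
      have hop : IsOpen {y : Eu d | R < |y i'|} :=
        isOpen_lt continuous_const ((PiLp.continuous_apply 2 _ i').abs)
      have h1 : g =ᶠ[𝓝 x] fun _ => 0 := by
        filter_upwards [hop.mem_nhds hlt] with y hy
        exact far_zero hgb hy
      have h2 : (fun y => fderiv ℝ g y (ue i)) =ᶠ[𝓝 x] fun _ => 0 := by
        filter_upwards [h1.fderiv (𝕜 := ℝ)] with y hy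
        rw [hy]; simp
      unfold D2
      rw [h2.fderiv_eq]; simp
    have hbx : InBox (R + 2) fun x => φ a j k x + ∑ i, D2 (u j k) (ue i) (ue i) x := by
      have h1 : InBox (R + 2) fun x => φ a j k x - -∑ i, D2 (u j k) (ue i) (ue i) x := by
        refine InBox.sub ((hbφ j k).mono (by linarith)) ?_
        have h2 : InBox (R + 2) fun x => ∑ i, D2 (u j k) (ue i) (ue i) x :=
          InBox.sum fun i _ => (hDs _ i (hbu j k)).mono (by linarith)
        have h3 := h2.mul (-1)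
        simpa only [neg_one_mul] using h3
      simpa only [sub_neg_eq_add] using h1
    refine riem_sq (R := R + 2) (by linarith) (g := fun x => φ a j k x +
      ∑ i, D2 (u j k) (ue i) (ue i) x) (G := fun r x => φ a j k x - cLap r (u j k) x) hbx hcont
      ?_ ?_ ?_
    · refine (hφ a j k).cs.add ?_
      have : HasCompactSupport fun x => ∑ i, D2 (u j k) (ue i) (ue i) x := by
        have h2 : (fun x => ∑ i, D2 (u j k) (ue i) (ue i) x) =
            ∑ i, D2 (u j k) (ue i) (ue i) := by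
          funext x; rw [Finset.sum_apply]
        rw [h2]
        exact HasCompactSupport.finset_sum fun i _ => D2_supp (hu1 j k).cs _ _
      exact this
    · filter_upwards [hge] with r hr
      exact ((hbφ j k).mono (by linarith)).sub (cLap_box (hbu j k) hr)
    · intro ε hε
      filter_upwards [cLap_unif (hu1 j k) ε hε] with r hr x
      have h1 := hr x
      rw [abs_sub_comm]
      have h2 : φ a j k x + ∑ i, D2 (u j k) (ue i) (ue i) x - (φ a j k x - cLap r (u j k) x) =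
        cLap r (u j k) x - -∑ i, D2 (u j k) (ue i) (ue i) x := by ring
      rw [h2]; exact h1
  have hL2 : Tendsto E2 atTop (𝓝 (1 / 2 * ∑ j, ∑ k, ∫ x, Ecl u j k x ^ 2)) := by
    rw [hE2]
    refine Tendsto.const_mul _ (tendsto_finsetSum _ fun j _ => tendsto_finsetSum _ fun k _ => ?_)
    have hEs : Continuous (Ecl u j k) ∧ HasCompactSupport (Ecl u j k) := by
      constructor
      · unfold Ecl
        exact continuous_finsetSum _ fun i _ =>
          ((D2_contDiff (hu1 i k).sm _ _).continuous.neg).add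
            (D2_contDiff (hu1 i j).sm _ _).continuous
      · have h2 : Ecl u j k = ∑ i, (-(D2 (u i k) (ue j) (ue i)) + D2 (u i j) (ue k) (ue i)) := by
          funext x
          unfold Ecl
          rw [Finset.sum_apply]
          rfl
        rw [h2]
        exact HasCompactSupport.finset_sum fun i _ =>
          (D2_supp (hu1 i k).cs _ _).neg.add (D2_supp (hu1 i j).cs _ _)
    obtain ⟨R3, hR3, hR3b⟩ := exists_box hEs.2
    refine riem_sq (R := R + 2 + R3) (by linarith) (g := Ecl u j k) (G := fun r x => cE r u j k x)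
      (hR3b.mono (by linarith)) hEs.1 hEs.2 ?_ ?_
    · filter_upwards [hge] with r hr
      exact (cE_box hbu hr j k).mono (by linarith)
    · exact fun ε hε => cE_unif hu1 j k ε hε
  have hB1 : ∀ᶠ r : ℕ in atTop, E1 r < η ^ 2 := by
    refine hL1.eventually_lt_const ?_
    have : 0 < η ^ 2 := by positivity
    linarith
  have hB2 : ∀ᶠ r : ℕ in atTop, |Real.sqrt (E2 r) -
      Real.sqrt (1 / 2 * ∑ j, ∑ k, ∫ x, Ecl u j k x ^ 2)| < η := by
    have h1 := (Real.continuous_sqrt.tendsto _).comp hL2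
    have h2 := (Metric.tendsto_nhds.1 h1) η hη0
    simpa only [Real.dist_eq, Function.comp_apply] using h2
  have hB3 : ∀ᶠ r : ℕ in atTop, (2 + 2 * Real.sqrt (2 * d)) ^ d * C ^ 2 * (Real.sqrt r)⁻¹ <
      η ^ 2 := by
    have h1 : Tendsto (fun r : ℕ => (2 + 2 * Real.sqrt (2 * d)) ^ d * C ^ 2 * (Real.sqrt r)⁻¹)
        atTop (𝓝 ((2 + 2 * Real.sqrt (2 * d)) ^ d * C ^ 2 * 0)) :=
      Tendsto.const_mul _ (tendsto_inv_atTop_zero.comp
        (Real.tendsto_sqrt_atTop.comp tendsto_natCast_atTop_atTop))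
    rw [mul_zero] at h1
    exact h1.eventually_lt_const (by positivity)
  refine ⟨R, hRp, ?_⟩
  filter_upwards [hB1, hB2, hB3, hge] with r g1 g2 g3 g4 c l K _ hg hK hKl
  have hK1 : 1 ≤ K := le_trans (Nat.one_le_pow _ _ g4) hK
  obtain ⟨U, hU⟩ : ∃ U : Fm d l, U = (r : ℝ) ^ 2 • (fD r c u : Fm d l) := ⟨_, rfl⟩
  have hUa : Asy U := by
    intro j k
    rw [hU]
    show (r : ℝ) ^ 2 • (fD r c u : Fm d l) j k = -((r : ℝ) ^ 2 • (fD r c u : Fm d l) k j)
    rw [fD_asy r c hu2 j k, smul_neg]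
  have key := TL_cmp hd0 (fD_asy (l := l) r c (ha a)) hUa K
  have k1 : nF ((fD r c (φ a) : Fm d l) - lapF U) ≤ η := by
    rw [hU, lapF_fD hg hbu, fD_sub]
    have h1 := nF_fD (l := l) hg (G := fun j k x => φ a j k x - cLap r (u j k) x) (fun j k =>
      ((hbφ j k).mono (by linarith)).sub (cLap_box (hbu j k) g4))
    have h2 : nF (fD r c fun j k x => φ a j k x - cLap r (u j k) x : Fm d l) ^ 2 = E1 r := by
      rw [h1, hE1]
    refine abs_le_of_sq_le_sq' ?_ hη0.le |>.2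
    rw [h2]; exact g1.le
  have k2 : nF (d1 (ds2 U)) = Real.sqrt (E2 r) := by
    rw [hU, ex_fD hg hbu]
    have h1 := nF_fD (l := l) hg (G := cE r u) (fun j k => cE_box hbu g4 j k)
    have h2 : nF (fD r c (cE r u) : Fm d l) ^ 2 = E2 r := by rw [h1, hE2]
    rw [← h2, Real.sqrt_sq (nF_nonneg _)]
  have hg1 : Geo R1 r c l := by
    refine ⟨hg.r1, hR1.le, ?_, ?_⟩
    · have h1 := hg.lo
      have h2 : (R1 + 2) * (r : ℝ) ≤ (R + 2) * r := by gcongr; rw [hR]; linarith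
      linarith
    · have h1 := hg.hi
      have h2 : (R1 + 2) * (r : ℝ) ≤ (R + 2) * r := by gcongr; rw [hR]; linarith
      linarith
  have k3 : nF (PF K (fD r c (φ a) : Fm d l)) ≤ η := by
    have h1 := PF_small (l := l) hd hK1 hKl (fun a => (fD r c (φ a) : Fm d l)) a
    have h2 := hN1 r c l hg1
    have h3 : N1 (fun a => (fD r c (φ a) : Fm d l)) ^ 2 ≤ C ^ 2 * (r : ℝ) ^ d := by
      have h4 := pow_le_pow_left₀ (N1_nonneg _) h2 2
      rwa [mul_pow, Real.sq_sqrt (by positivity)] at h4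
    refine abs_le_of_sq_le_sq' ?_ hη0.le |>.2
    refine h1.trans (le_trans ?_ g3.le)
    have hs0 : (0 : ℝ) ≤ Real.sqrt K ^ (d - 2) := by positivity
    calc (2 + 2 * Real.sqrt (2 * d)) ^ d / Real.sqrt K ^ (d - 2) *
          N1 (fun a => (fD r c (φ a) : Fm d l)) ^ 2
        ≤ (2 + 2 * Real.sqrt (2 * d)) ^ d / Real.sqrt K ^ (d - 2) * (C ^ 2 * (r : ℝ) ^ d) := by
          gcongr
      _ = (2 + 2 * Real.sqrt (2 * d)) ^ d * C ^ 2 * ((r : ℝ) ^ d / Real.sqrt K ^ (d - 2)) := by ring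
      _ ≤ (2 + 2 * Real.sqrt (2 * d)) ^ d * C ^ 2 * (Real.sqrt r)⁻¹ := by
          gcongr
          exact pow_aux hd g4 hK
  rw [k2] at key
  have h5 : |nF (TL K (fD r c (φ a) : Fm d l)) - Real.sqrt (E2 r)| ≤ 4 * η := by linarith
  rw [abs_le] at h5 hu4 ⊢
  rw [abs_lt] at g2
  rw [hη] at h5 g2 hu4
  constructor <;> linarith [h5.1, h5.2, g2.1, g2.2, hu4.1, hu4.2]

/-- the variance is a limit -/
theorem vlim (hd : 3 ≤ d) {φ : Fin n → Fin d → Fin d → Eu d → ℝ} (hφ : ∀ a j k, Sc (φ a j k))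
    (ha : ∀ a j k x, φ a j k x = -φ a k j x) {δ : ℝ} (hδ : 0 < δ) :
    ∃ R : ℝ, 0 < R ∧ ∀ᶠ r : ℕ in atTop, ∀ (c l K : ℕ) [NeZero l], Geo R r c l → r ^ 7 ≤ K →
      K ≤ l → |vK K (fun a => (fD r c (φ a) : Fm d l)) - ∑ a, sgm (φ a)| ≤ δ := by
  obtain ⟨S, hS⟩ : ∃ S : ℝ, S = ∑ a, Real.sqrt (sgm (φ a)) := ⟨_, rfl⟩
  have hS0 : 0 ≤ S := by rw [hS]; exact Finset.sum_nonneg fun a _ => Real.sqrt_nonneg _
  obtain ⟨ε, hε⟩ : ∃ ε : ℝ, ε = min 1 (δ / ((n + 1) * (2 * S + 1))) := ⟨_, rfl⟩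
  have hε0 : 0 < ε := by rw [hε]; positivity
  have hε1 : ε ≤ 1 := by rw [hε]; exact min_le_left _ _
  have hε2 : ε ≤ δ / ((n + 1) * (2 * S + 1)) := by rw [hε]; exact min_le_right _ _
  have hex := fun a => one_lim hd hφ ha a hε0
  choose R0 hR0 hR1 using hex
  obtain ⟨R, hR⟩ : ∃ R : ℝ, R = 1 + ∑ a, R0 a := ⟨_, rfl⟩
  have hRs : 0 ≤ ∑ a, R0 a := Finset.sum_nonneg fun a _ => (hR0 a).le
  refine ⟨R, by rw [hR]; linarith, ?_⟩
  have hall : ∀ᶠ r : ℕ in atTop, ∀ a, ∀ (c l K : ℕ) [NeZero l], Geo (R0 a) r c l → r ^ 7 ≤ K →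
      K ≤ l → |nF (TL K (fD r c (φ a) : Fm d l)) - Real.sqrt (sgm (φ a))| ≤ ε :=
    Filter.eventually_all.2 hR1
  filter_upwards [hall] with r hr c l K _ hg hK hKl
  rw [vK_eq, ← Finset.sum_sub_distrib]
  have h1 : ∀ a, |ipF (TL K (fD r c (φ a) : Fm d l)) (TL K (fD r c (φ a) : Fm d l)) - sgm (φ a)| ≤
      ε * (2 * S + 1) := by
    intro a
    have hle : R0 a ≤ R := by
      have : R0 a ≤ ∑ a, R0 a :=
        Finset.single_le_sum (f := R0) (fun a _ => (hR0 a).le) (Finset.mem_univ a)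
      rw [hR]; linarith
    have hga : Geo (R0 a) r c l := by
      refine ⟨hg.r1, (hR0 a).le, ?_, ?_⟩
      · have h1 := hg.lo
        have h2 : (R0 a + 2) * (r : ℝ) ≤ (R + 2) * r := by gcongr
        linarith
      · have h1 := hg.hi
        have h2 : (R0 a + 2) * (r : ℝ) ≤ (R + 2) * r := by gcongr
        linarith
    have h2 := hr a c l K hga hK hKl
    obtain ⟨x, hx⟩ : ∃ x, x = nF (TL K (fD r c (φ a) : Fm d l)) := ⟨_, rfl⟩
    obtain ⟨y, hy⟩ : ∃ y, y = Real.sqrt (sgm (φ a)) := ⟨_, rfl⟩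
    have hy0 : 0 ≤ y := by rw [hy]; exact Real.sqrt_nonneg _
    have hsg : 0 ≤ sgm (φ a) := by
      unfold sgm sgF
      exact integral_nonneg fun ξ => by positivity
    have hy2 : y ^ 2 = sgm (φ a) := by rw [hy, Real.sq_sqrt hsg]
    have hyS : y ≤ S := by
      rw [hy, hS]
      exact Finset.single_le_sum (f := fun a => Real.sqrt (sgm (φ a)))
        (fun a _ => Real.sqrt_nonneg _) (Finset.mem_univ a)
    rw [← hx, ← hy] at h2
    rw [← nF_sq, ← hx, ← hy2]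
    have h3 : x ^ 2 - y ^ 2 = (x - y) * (x - y + 2 * y) := by ring
    rw [h3, abs_mul]
    have h4 : |x - y + 2 * y| ≤ 2 * S + 1 := by
      refine (abs_add_le _ _).trans ?_
      rw [abs_of_nonneg (by positivity : 0 ≤ 2 * y)]
      linarith
    exact mul_le_mul h2 h4 (abs_nonneg _) hε0.le
  calc |∑ a, (ipF (TL K (fD r c (φ a) : Fm d l)) (TL K (fD r c (φ a) : Fm d l)) - sgm (φ a))|
      ≤ ∑ a, |ipF (TL K (fD r c (φ a) : Fm d l)) (TL K (fD r c (φ a) : Fm d l)) - sgm (φ a)| :=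
        Finset.abs_sum_le_sum_abs _ _
    _ ≤ ∑ _a : Fin n, ε * (2 * S + 1) := Finset.sum_le_sum fun a _ => h1 a
    _ = n * (ε * (2 * S + 1)) := by
        rw [Finset.sum_const, Finset.card_univ, Fintype.card_fin, nsmul_eq_mul]
    _ ≤ (n + 1) * (δ / ((n + 1) * (2 * S + 1)) * (2 * S + 1)) := by
        gcongr
        linarith
    _ = δ := by field_simp

end

end Pool.Agent.W2helper11.MX
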