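import Mathlib
import Pool.Agent.W2helper11.MX.VLim2

/-!
# The field on the periodic lattice
-/

open Filter Topology MeasureTheory
open Pool.Agent.H906R3.YM hiding Pl
open Pool.Agent.W793.YM

namespace Pool.Agent.W2helper11.MX

set_option linter.unusedSectionVars false

noncomputable section

variable {n N d l m : ℕ}

section alg

variable {G : Type*} [Group G]

/-- plaquettes of the infinite lattice -/
def plqZ (V : Ez d → G) (y : Fin d → ℤ) (j k : Fin d) : G :=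
  V (y, j) * V (y + Pi.single j 1, k) * (V (y + Pi.single k 1, j))⁻¹ * (V (y, k))⁻¹

lemma plqZ_trans (V : Ez d → G) (w y : Fin d → ℤ) (j k : Fin d) :
    plqZ (fun e => V (e.1 + w, e.2)) y j k = plqZ V (y + w) j k := by
  unfold plqZ
  simp only [add_right_comm]

lemma plqZ_lf (U : Ed d l → G) (y : Fin d → ℤ) (j k : Fin d) :
    plqZ (lf U) y j k = plqT U (zt l y) j k := by
  unfold plqZ plqT
  rw [← zt_add, ← zt_add]
  rfl

end alg

variable {G : Type*} [Group G] [TopologicalSpace G] [IsTopologicalGroup G] [CompactSpace G]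
  [SecondCountableTopology G] [MeasurableSpace G] [BorelSpace G] (μ : Measure G)
  [IsProbabilityMeasure μ] [μ.IsMulLeftInvariant] [μ.IsMulRightInvariant] [μ.IsInvInvariant]
  {L : LD G N n}

/-- one term of the field -/
def YT (L : LD G N n) (r : ℕ) (φ : Fin n → Fin d → Fin d → Eu d → ℝ) (o : Fin d → ℤ)
    (P : (Fin d → ℤ) → List (Fin d × Bool)) (V : Ez d → G) (y : Fin d → ℤ) : ℝ :=
  ∑ a, 1 / 2 * ∑ j, ∑ k, φ a j k (emb r y) *
    fi L a (hol V o (P y) * plqZ V y j k * (hol V o (P y))⁻¹)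

/-- the field -/
def YF (L : LD G N n) (r : ℕ) (φ : Fin n → Fin d → Fin d → Eu d → ℝ) (o : Fin d → ℤ)
    (P : (Fin d → ℤ) → List (Fin d × Bool)) (V : Ez d → G) : ℝ :=
  kap d r * ∑' y : Fin d → ℤ, YT L r φ o P V y

lemma sum_pt [NeZero l] {R : ℝ} {r c : ℕ} (hg : Geo R r c l) {h : (Fin d → ℤ) → ℝ}
    (hh : ∀ y, h y ≠ 0 → ∀ i, |(y i : ℝ)| ≤ (R + 2) * r) :
    ∑ z : St d l, h (pt c z) = ∑' y : Fin d → ℤ, h y := by
  have hlo := hg.lo
  have hhi := hg.hi
  obtain ⟨s, hs⟩ : ∃ s : Finset (Fin d → ℤ), s = Fintype.piFinset fun _ =>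
    Finset.Ico (-(c : ℤ)) (l - c) := ⟨_, rfl⟩
  have hms : ∀ y : Fin d → ℤ, y ∈ s ↔ ∀ i, -(c : ℤ) ≤ y i ∧ y i < l - c := by
    intro y
    rw [hs, Fintype.mem_piFinset]
    simp only [Finset.mem_Ico]
  have h1 : ∑' y : Fin d → ℤ, h y = ∑ y ∈ s, h y := by
    refine tsum_eq_sum fun y hy => ?_
    by_contra h2
    apply hy
    rw [hms]
    intro i
    have h3 := hh _ h2 i
    obtain ⟨h4, h5⟩ := abs_le.1 h3
    have h6 : -(c : ℝ) < y i := by linarith
    have h7 : (y i : ℝ) < l - c := by linarith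
    constructor
    · exact_mod_cast h6.le
    · exact_mod_cast h7
  rw [h1]
  refine Finset.sum_bij' (fun z _ => pt c z) (fun y _ => zt l (fun i => y i + c)) ?_ ?_ ?_ ?_ ?_
  · intro z _
    rw [hms]
    intro i
    unfold pt
    have := wv_lt z i
    constructor <;> omega
  · intro y _; exact Finset.mem_univ _
  · intro z _
    funext i
    unfold zt pt wv
    push_cast
    rw [sub_add_cancel, ZMod.natCast_zmod_val]
  · intro y hy
    rw [hms] at hy
    funext i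
    unfold pt
    have h2 := wv_zt (l := l) (z := fun i => y i + c) (fun i => by
      have := hy i
      constructor <;> omega) i
    rw [h2]
    ring
  · intro z _; rfl

lemma zt_pt [NeZero l] (c : ℕ) (z : St d l) : zt l (pt c z + fun _ => (c : ℤ)) = z := by
  funext i
  unfold zt pt wv
  rw [Pi.add_apply]
  push_cast
  rw [sub_add_cancel, ZMod.natCast_zmod_val]

lemma YT_ne {R : ℝ} {r : ℕ} (hr : 1 ≤ r) {φ : Fin n → Fin d → Fin d → Eu d → ℝ}
    (hφ : ∀ a j k, InBox R (φ a j k)) {o : Fin d → ℤ} {P : (Fin d → ℤ) → List (Fin d × Bool)}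
    {V : Ez d → G} {y : Fin d → ℤ} (h : YT L r φ o P V y ≠ 0) (i : Fin d) :
    |(y i : ℝ)| ≤ R * r := by
  have hr0 : (0 : ℝ) < r := by exact_mod_cast hr
  unfold YT at h
  obtain ⟨a, -, ha⟩ := Finset.exists_ne_zero_of_sum_ne_zero h
  obtain ⟨j, -, hj⟩ := Finset.exists_ne_zero_of_sum_ne_zero (right_ne_zero_of_mul ha)
  obtain ⟨k, -, hk⟩ := Finset.exists_ne_zero_of_sum_ne_zero hj
  have h1 := hφ a j k _ (left_ne_zero_of_mul hk) i
  rw [emb_apply, abs_div, abs_of_pos hr0, div_le_iff₀ hr0] at h1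
  exact h1

/-- the field is a finite sum -/
lemma YF_fin {R : ℝ} {r : ℕ} (hr : 1 ≤ r) {φ : Fin n → Fin d → Fin d → Eu d → ℝ}
    (hφ : ∀ a j k, InBox R (φ a j k)) (o : Fin d → ℤ) (P : (Fin d → ℤ) → List (Fin d × Bool)) :
    ∃ s : Finset (Fin d → ℤ), ∀ V : Ez d → G, YF L r φ o P V =
      kap d r * ∑ y ∈ s, YT L r φ o P V y := by
  refine ⟨bx d ⌈R * r⌉₊, fun V => ?_⟩
  unfold YF
  congr 1
  refine tsum_eq_sum fun y hy => ?_
  by_contra h2
  apply hy
  rw [mem_bx]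
  intro i
  have h3 := (YT_ne hr hφ h2 i).trans (Nat.le_ceil _)
  exact_mod_cast h3

lemma YF_cont {R : ℝ} {r : ℕ} (hr : 1 ≤ r) {φ : Fin n → Fin d → Fin d → Eu d → ℝ}
    (hφ : ∀ a j k, InBox R (φ a j k)) (o : Fin d → ℤ) (P : (Fin d → ℤ) → List (Fin d × Bool)) :
    Continuous (YF L r φ o P : (Ez d → G) → ℝ) := by
  obtain ⟨s, hs⟩ := YF_fin (L := L) hr hφ o P
  have h1 : (YF L r φ o P : (Ez d → G) → ℝ) = fun V => kap d r * ∑ y ∈ s, YT L r φ o P V y :=
    funext hs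
  rw [h1]
  refine continuous_const.mul (continuous_finsetSum _ fun y _ => ?_)
  unfold YT
  refine continuous_finsetSum _ fun a _ => continuous_const.mul (continuous_finsetSum _ fun j _ =>
    continuous_finsetSum _ fun k _ => continuous_const.mul ?_)
  have hh : Continuous fun V : Ez d → G => hol V o (P y) := hol_cont o (P y)
  have hp : Continuous fun V : Ez d → G => plqZ V y j k := by
    have ce : ∀ e : Ez d, Continuous fun V : Ez d → G => V e := fun e => continuous_apply e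
    exact (((ce _).mul (ce _)).mul (ce _).inv).mul (ce _).inv
  exact (fi_cont a).comp ((hh.mul hp).mul hh.inv)

/-- the field of the translated configuration is a smeared curvature -/
lemma YF_Fh [NeZero l] {R : ℝ} {r c : ℕ} (hg : Geo R r c l)
    {φ : Fin n → Fin d → Fin d → Eu d → ℝ} (hφ : ∀ a j k, InBox R (φ a j k)) (o : Fin d → ℤ)
    (P : (Fin d → ℤ) → List (Fin d × Bool)) (U : Ed d l → G) :
    YF L r φ o P (fun e => lf U (e.1 + (fun _ => (c : ℤ)), e.2)) =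
      Fh L (fun a => (fD r c (φ a) : Fm d l))
        (fun z => hol (lf U) (o + fun _ => (c : ℤ)) (P (pt c z))) U := by
  obtain ⟨w, hw⟩ : ∃ w : Fin d → ℤ, w = fun _ => (c : ℤ) := ⟨_, rfl⟩
  rw [← hw]
  unfold YF
  rw [← sum_pt hg (h := fun y => YT L r φ o P (fun e => lf U (e.1 + w, e.2)) y) (fun y hy i => by
    have h1 := YT_ne hg.r1 hφ hy i
    have h2 : (0 : ℝ) ≤ r := Nat.cast_nonneg r
    nlinarith)]
  unfold Fh ipF ip2
  have h1 : ∀ z : St d l, YT L r φ o P (fun e => lf U (e.1 + w, e.2)) (pt c z) =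
      ∑ a, 1 / 2 * ∑ j, ∑ k, φ a j k (emb r (pt c z)) * fi L a (hol (lf U) (o + w) (P (pt c z)) *
        plqT U z j k * (hol (lf U) (o + w) (P (pt c z)))⁻¹) := by
    intro z
    unfold YT
    refine Finset.sum_congr rfl fun a _ => ?_
    congr 1
    refine Finset.sum_congr rfl fun j _ => Finset.sum_congr rfl fun k _ => ?_
    rw [hol_trans, plqZ_trans, plqZ_lf, hw, zt_pt]
  simp only [h1]
  rw [Finset.mul_sum]
  have h2 : ∀ z : St d l, kap d r * ∑ a, 1 / 2 * ∑ j, ∑ k, φ a j k (emb r (pt c z)) *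
      fi L a (hol (lf U) (o + w) (P (pt c z)) * plqT U z j k *
        (hol (lf U) (o + w) (P (pt c z)))⁻¹) =
      ∑ a, ∑ j, ∑ k, 1 / 2 * ((fD r c (φ a) : Fm d l) j k z *
        fi L a (hol (lf U) (o + w) (P (pt c z)) * plqT U z j k *
        (hol (lf U) (o + w) (P (pt c z)))⁻¹)) := by
    intro z
    rw [Finset.mul_sum]
    refine Finset.sum_congr rfl fun a _ => ?_
    rw [Finset.mul_sum, Finset.mul_sum]
    refine Finset.sum_congr rfl fun j _ => ?_
    rw [Finset.mul_sum, Finset.mul_sum]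
    refine Finset.sum_congr rfl fun k _ => ?_
    have e : (fD r c (φ a) : Fm d l) j k z = kap d r * φ a j k (emb r (pt c z)) := rfl
    rw [e]
    ring
  simp only [h2]
  rw [Finset.sum_comm]
  refine Finset.sum_congr rfl fun a _ => ?_
  rw [Finset.sum_comm, Finset.mul_sum]
  refine Finset.sum_congr rfl fun j _ => ?_
  rw [Finset.sum_comm, Finset.mul_sum]
  refine Finset.sum_congr rfl fun k _ => ?_
  rw [Finset.mul_sum]

/-- translation invariance -/
lemma EX_transl [NeZero l] (c : ℕ) (β : ℝ) (F : (Ez d → G) → ℝ) :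
    EX μ L β (fun U : Ed d l → G => F (lf U)) =
      EX μ L β (fun U : Ed d l → G => F (fun e => lf U (e.1 + (fun _ => (c : ℤ)), e.2))) := by
  rw [← EX_tr μ (zt l fun _ => (c : ℤ)) (fun U : Ed d l → G => F (lf U))]
  congr 1
  funext U
  congr 1
  funext e
  unfold lf tr zt
  congr 1
  refine Prod.ext ?_ rfl
  funext i
  simp

lemma exp_lip (x y : ℝ) (hx : 0 ≤ x) (hy : 0 ≤ y) :
    |Real.exp (-x) - Real.exp (-y)| ≤ |x - y| := by
  wlog hxy : x ≤ y generalizing x y with H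
  · rw [abs_sub_comm, abs_sub_comm x y]
    exact H y x hy hx (le_of_not_ge hxy)
  · have h2 : Real.exp (-y) ≤ Real.exp (-x) := Real.exp_le_exp.2 (by linarith)
    rw [abs_of_nonneg (by linarith), abs_sub_comm, abs_of_nonneg (by linarith)]
    have h3 : Real.exp (-y) = Real.exp (-x) * Real.exp (-(y - x)) := by
      rw [← Real.exp_add]; congr 1; ring
    have h4 := Real.add_one_le_exp (-(y - x))
    have h5 : Real.exp (-x) ≤ 1 := Real.exp_le_one_iff.2 (by linarith)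
    have h6 : 0 ≤ Real.exp (-x) := (Real.exp_pos _).le
    rw [h3]
    nlinarith

lemma err_two {r K : ℕ} (hr : 1 ≤ r) (hK : K = r ^ 7) {C1 Nf b : ℝ} (hC1 : 0 < C1)
    (hN : Nf ^ 2 ≤ C1 ^ 2 * (r : ℝ) ^ d) (hb : (r : ℝ) ^ (15 * d + 22) ≤ b) :
    (K : ℝ) ^ (2 * d + 3) * (1 + Nf) ^ 2 / b ≤ 2 * (1 + C1 ^ 2) * (r : ℝ)⁻¹ := by
  have hr0 : (0 : ℝ) < r := by exact_mod_cast hr
  have hr1 : (1 : ℝ) ≤ r := by exact_mod_cast hr
  have hb0 : 0 < b := lt_of_lt_of_le (by positivity) hb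
  have h1 : (1 + Nf) ^ 2 ≤ 2 * (1 + C1 ^ 2) * (r : ℝ) ^ d := by
    have h2 : (1 : ℝ) ≤ (r : ℝ) ^ d := one_le_pow₀ hr1
    nlinarith [sq_nonneg (1 - Nf)]
  have h2 : (K : ℝ) ^ (2 * d + 3) = (r : ℝ) ^ (14 * d + 21) := by
    rw [hK]; push_cast; rw [← pow_mul]; congr 1; ring
  rw [div_le_iff₀ hb0, h2]
  have h3 : (r : ℝ) ^ (15 * d + 22) = (r : ℝ) ^ (14 * d + 21) * (r : ℝ) ^ d * r := by
    rw [← pow_add, ← pow_succ]; congr 1; ring
  calc (r : ℝ) ^ (14 * d + 21) * (1 + Nf) ^ 2 ≤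
        (r : ℝ) ^ (14 * d + 21) * (2 * (1 + C1 ^ 2) * (r : ℝ) ^ d) := by gcongr
    _ = 2 * (1 + C1 ^ 2) * (r : ℝ)⁻¹ * (r : ℝ) ^ (15 * d + 22) := by
        rw [h3]
        field_simp
    _ ≤ 2 * (1 + C1 ^ 2) * (r : ℝ)⁻¹ * b := by gcongr

lemma err_one (hd : 3 ≤ d) {r K : ℕ} (hr : 1 ≤ r) (hK : K = r ^ 7) {C1 Nf : ℝ} (hC1 : 0 < C1)
    (hN : Nf ≤ C1 * Real.sqrt ((r : ℝ) ^ d)) :
    Nf / Real.sqrt (Real.sqrt K ^ (d - 2)) ≤ C1 * Real.sqrt ((Real.sqrt r)⁻¹) := by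
  have hr0 : (0 : ℝ) < r := by exact_mod_cast hr
  have hK0 : (0 : ℝ) < K := by rw [hK]; positivity
  have hsK : 0 < Real.sqrt K := Real.sqrt_pos.2 hK0
  have h1 : 0 < Real.sqrt (Real.sqrt K ^ (d - 2)) := Real.sqrt_pos.2 (by positivity)
  calc Nf / Real.sqrt (Real.sqrt K ^ (d - 2)) ≤
        C1 * Real.sqrt ((r : ℝ) ^ d) / Real.sqrt (Real.sqrt K ^ (d - 2)) := by gcongr
    _ = C1 * Real.sqrt ((r : ℝ) ^ d / Real.sqrt K ^ (d - 2)) := by
        rw [Real.sqrt_div (by positivity), mul_div_assoc]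
    _ ≤ _ := by
        refine mul_le_mul_of_nonneg_left (Real.sqrt_le_sqrt ?_) hC1.le
        exact pow_aux hd hr (by rw [hK])

/-- The characteristic function of the field on the periodic lattice. -/
theorem tor_main (hd : 3 ≤ d) {φ : Fin n → Fin d → Fin d → Eu d → ℝ}
    (hφ : ∀ a j k, Sc (φ a j k)) (ha : ∀ a j k x, φ a j k x = -φ a k j x) (C0 : ℝ) {δ : ℝ}
    (hδ : 0 < δ) : ∀ᶠ r : ℕ in atTop, ∀ b : ℝ, (r : ℝ) ^ (15 * d + 22) ≤ b →
      ∀ (m : ℕ) [NeZero m], 4 * r ^ 7 < m → ∀ (o : Fin d → ℤ)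
        (P : (Fin d → ℤ) → List (Fin d × Bool)), (∀ i, |(o i : ℝ)| ≤ C0 * r) →
        (∀ y, dest o (P y) = y ∧ ((P y).length : ℝ) ≤ C0 * (r + ∑ i, |(y i : ℝ)|)) →
        |EX μ L (b ^ 4) (fun U : Ed d (2 * m) → G => Real.cos (b ^ 2 * YF L r φ o P (lf U))) -
          Real.exp (-((∑ a, sgm (φ a)) / 2))| ≤ δ ∧
        |EX μ L (b ^ 4) (fun U : Ed d (2 * m) → G => Real.sin (b ^ 2 * YF L r φ o P (lf U)))| ≤
          δ := by
  obtain ⟨C, hC, hmain⟩ := lattice_rb μ (L := L) hd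
  obtain ⟨C1, R1, hC1, hR1, hbox, hN1⟩ := N1_fD hφ
  obtain ⟨R2, hR2, hv⟩ := vlim hd hφ ha (half_pos hδ)
  obtain ⟨R, hR⟩ : ∃ R, R = R1 + R2 := ⟨_, rfl⟩
  have hRp : 0 < R := by rw [hR]; linarith
  -- the error terms
  have e1 : Tendsto (fun r : ℕ => C * (C1 * Real.sqrt ((Real.sqrt r)⁻¹) +
      2 * (1 + C1 ^ 2) * (r : ℝ)⁻¹)) atTop (𝓝 (C * (C1 * Real.sqrt 0 + 2 * (1 + C1 ^ 2) * 0))) := by
    refine Tendsto.const_mul _ (Tendsto.add (Tendsto.const_mul _ ?_) (Tendsto.const_mul _ ?_))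
    · exact (Real.continuous_sqrt.tendsto _).comp (tendsto_inv_atTop_zero.comp
        (Real.tendsto_sqrt_atTop.comp tendsto_natCast_atTop_atTop))
    · exact tendsto_inv_atTop_nhds_zero_nat
  rw [Real.sqrt_zero, mul_zero, mul_zero, add_zero, mul_zero] at e1
  have e2 : ∀ᶠ r : ℕ in atTop, C * (C1 * Real.sqrt ((Real.sqrt r)⁻¹) +
      2 * (1 + C1 ^ 2) * (r : ℝ)⁻¹) < δ / 2 := e1.eventually_lt_const (half_pos hδ)
  -- the size of the cube
  obtain ⟨A, hA⟩ : ∃ A : ℝ, A = 2 * ((R + 2) + |C0| + |C0| * (1 + d * R)) + 8 := ⟨_, rfl⟩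
  have hAp : 8 ≤ A := by rw [hA]; have := abs_nonneg C0; nlinarith [show (0 : ℝ) ≤ d * R by positivity]
  have e3 : ∀ᶠ r : ℕ in atTop, A ≤ (r : ℝ) := tendsto_natCast_atTop_atTop.eventually_ge_atTop A
  filter_upwards [hv, e2, e3, eventually_ge_atTop 1] with r g1 g2 g3 g4 b hb m _ hm o P ho hP
  have hr0 : (0 : ℝ) < r := by exact_mod_cast g4
  have hr1 : (1 : ℝ) ≤ r := by exact_mod_cast g4
  obtain ⟨K, hK⟩ : ∃ K : ℕ, K = r ^ 7 := ⟨_, rfl⟩
  have hKr : (K : ℝ) = (r : ℝ) ^ 7 := by rw [hK]; push_cast; rfl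
  have hKA : A * r ≤ K := by
    rw [hKr]
    calc A * r ≤ r * r := by gcongr
      _ = (r : ℝ) ^ 2 := by ring
      _ ≤ (r : ℝ) ^ 7 := pow_le_pow_right₀ hr1 (by norm_num)
  have hK8 : (8 : ℝ) ≤ K := by nlinarith
  have hK1 : 1 ≤ K := by
    have : (1 : ℝ) ≤ K := by linarith
    exact_mod_cast this
  have hK8n : 8 ≤ K := by exact_mod_cast hK8
  rw [← hK] at hm
  obtain ⟨c, hc⟩ : ∃ c : ℕ, c = K + 2 + K / 2 := ⟨_, rfl⟩
  have hh1 : (K : ℝ) / 2 - 1 < (K / 2 : ℕ) := by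
    have h1 : K < 2 * (K / 2 + 1) := by omega
    have h2 : (K : ℝ) < 2 * ((K / 2 : ℕ) + 1) := by exact_mod_cast h1
    linarith
  have hh2 : ((K / 2 : ℕ) : ℝ) ≤ (K : ℝ) / 2 := by
    have h1 : 2 * (K / 2) ≤ K := by omega
    have h2 : 2 * ((K / 2 : ℕ) : ℝ) ≤ K := by exact_mod_cast h1
    linarith
  have hcr : (c : ℝ) = K + 2 + (K / 2 : ℕ) := by rw [hc]; push_cast; rfl
  have hmr : 4 * (K : ℝ) + 1 ≤ m := by exact_mod_cast hm
  have hl : ((2 * m : ℕ) : ℝ) = 2 * m := by push_cast; rfl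
  -- small distances
  have hd0 : (0 : ℝ) ≤ d := Nat.cast_nonneg d
  have hC00 := abs_nonneg C0
  have s1 : (R + 2) * r + 4 ≤ (K : ℝ) / 2 := by
    have h1 : 2 * ((R + 2) * r) + 8 ≤ A * r := by
      rw [hA]
      nlinarith [mul_nonneg hC00 hr0.le, mul_nonneg (mul_nonneg hC00 (by positivity :
        (0 : ℝ) ≤ 1 + d * R)) hr0.le]
    linarith
  have s2 : |C0| * r + 4 ≤ (K : ℝ) / 2 := by
    have h1 : 2 * (|C0| * r) + 8 ≤ A * r := by
      rw [hA]
      nlinarith [mul_nonneg hRp.le hr0.le, mul_nonneg (mul_nonneg hC00 (by positivity :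
        (0 : ℝ) ≤ 1 + d * R)) hr0.le]
    linarith
  have s3 : |C0| * (1 + d * R) * r ≤ K := by
    have h1 : |C0| * (1 + d * R) * r ≤ A * r := by
      rw [hA]
      nlinarith [mul_nonneg hRp.le hr0.le, mul_nonneg hC00 hr0.le,
        mul_nonneg (mul_nonneg hC00 (by positivity : (0 : ℝ) ≤ 1 + d * R)) hr0.le]
    linarith
  have hgeo : Geo R r c (2 * m) := by
    refine ⟨g4, hRp.le, ?_, ?_⟩
    · rw [hcr]; linarith
    · rw [hcr, hl]; linarith
  have hgeo1 : Geo R1 r c (2 * m) := by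
    have h0 : (R1 + 2) * (r : ℝ) ≤ (R + 2) * r := by gcongr; rw [hR]; linarith
    exact ⟨g4, hR1.le, by have := hgeo.lo; linarith, by have := hgeo.hi; linarith⟩
  have hgeo2 : Geo R2 r c (2 * m) := by
    have h0 : (R2 + 2) * (r : ℝ) ≤ (R + 2) * r := by gcongr; rw [hR]; linarith
    exact ⟨g4, hR2.le, by have := hgeo.lo; linarith, by have := hgeo.hi; linarith⟩
  obtain ⟨f, hf⟩ : ∃ f : Fin n → Fm d (2 * m), f = fun a => fD r c (φ a) := ⟨_, rfl⟩
  obtain ⟨w, hw⟩ : ∃ w : Fin d → ℤ, w = fun _ => (c : ℤ) := ⟨_, rfl⟩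
  have hsup : ∀ a j k (z : St d (2 * m)), f a j k z ≠ 0 → ∀ i, |(pt c z i : ℝ)| ≤ R * r := by
    intro a j k z hz i
    have h1 : φ a j k (emb r (pt c z)) ≠ 0 := by
      intro h0
      apply hz
      rw [hf]
      show kap d r * φ a j k (emb r (pt c z)) = 0
      rw [h0, mul_zero]
    have h2 := hbox a j k _ h1 i
    rw [emb_apply, abs_div, abs_of_pos hr0, div_le_iff₀ hr0] at h2
    refine h2.trans ?_
    gcongr
    rw [hR]; linarith
  have hb1 : 1 ≤ b := (one_le_pow₀ hr1).trans hb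
  have key := hmain b hb1 m K hK1 (by
    have : (3 * K + 5 : ℝ) < 2 * m := by linarith
    exact_mod_cast this) f (fun a => by rw [hf]; exact fD_asy r c (ha a))
    (fun a j k z hz i => by
      have h1 := hsup a j k z hz i
      have h2 : (pt c z i : ℝ) = wv z i - c := by unfold pt; push_cast; rfl
      rw [h2, hcr, abs_le] at h1
      have h3 : (K : ℝ) + 2 ≤ wv z i := by linarith [h1.1]
      have h4 : (wv z i : ℝ) < 2 * K + 2 := by linarith [h1.2]
      constructor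
      · exact_mod_cast h3
      · exact_mod_cast h4)
    (o + w) (fun z => P (pt c z)) (fun i => by
      have h1 := ho i
      have h2 : C0 * r ≤ |C0| * r := by gcongr; exact le_abs_self _
      have h3 := abs_le.1 (h1.trans h2)
      have h4 : (((o + w) i : ℤ) : ℝ) = o i + c := by rw [hw, Pi.add_apply]; push_cast; rfl
      constructor
      · have h5 : (K : ℝ) + 1 ≤ ((o + w) i : ℤ) := by rw [h4, hcr]; linarith [h3.1]
        exact_mod_cast h5
      · have h5 : (((o + w) i : ℤ) : ℝ) ≤ 2 * K + 3 := by rw [h4, hcr]; linarith [h3.2]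
        exact_mod_cast h5)
    (fun a j k z hz => by
      obtain ⟨h1, h2⟩ := hP (pt c z)
      constructor
      · have h3 : ∑ i, |(pt c z i : ℝ)| ≤ d * (R * r) := by
          calc _ ≤ ∑ _i : Fin d, R * (r : ℝ) :=
                Finset.sum_le_sum fun i _ => hsup a j k z hz i
            _ = _ := by rw [Finset.sum_const, Finset.card_univ, Fintype.card_fin, nsmul_eq_mul]
        have h4 : 0 ≤ ∑ i, |(pt c z i : ℝ)| := Finset.sum_nonneg fun i _ => abs_nonneg _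
        have h5 : ((P (pt c z)).length : ℝ) ≤ K := by
          calc _ ≤ C0 * (r + ∑ i, |(pt c z i : ℝ)|) := h2
            _ ≤ |C0| * (r + ∑ i, |(pt c z i : ℝ)|) := by gcongr; exact le_abs_self _
            _ ≤ |C0| * (r + d * (R * r)) := by gcongr
            _ = |C0| * (1 + d * R) * r := by ring
            _ ≤ K := s3
        exact_mod_cast h5
      · show zt (2 * m) (dest (o + w) (P (pt c z))) = z
        rw [dest_trans, h1, hw, zt_pt])
  -- the error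
  have hNf : N1 f ≤ C1 * Real.sqrt ((r : ℝ) ^ d) := by rw [hf]; exact hN1 r c (2 * m) hgeo1
  have hNf0 := N1_nonneg f
  have hNf2 : N1 f ^ 2 ≤ C1 ^ 2 * (r : ℝ) ^ d := by
    have h4 := pow_le_pow_left₀ hNf0 hNf 2
    rwa [mul_pow, Real.sq_sqrt (by positivity)] at h4
  have t1 : N1 f / Real.sqrt (Real.sqrt K ^ (d - 2)) ≤ C1 * Real.sqrt ((Real.sqrt r)⁻¹) :=
    err_one hd g4 hK hC1 hNf
  have t2 : (K : ℝ) ^ (2 * d + 3) * (1 + N1 f) ^ 2 / b ≤ 2 * (1 + C1 ^ 2) * (r : ℝ)⁻¹ :=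
    err_two g4 hK hC1 hNf2 hb
  have t3 : C * (N1 f / Real.sqrt (Real.sqrt K ^ (d - 2)) +
      (K : ℝ) ^ (2 * d + 3) * (1 + N1 f) ^ 2 / b) ≤ δ / 2 := by
    refine le_trans ?_ g2.le
    gcongr
  -- the variance
  have hvar := g1 c (2 * m) K hgeo2 (by rw [hK]) (by
    have : (K : ℝ) ≤ ((2 * m : ℕ) : ℝ) := by rw [hl]; linarith
    exact_mod_cast this)
  rw [← hf] at hvar
  have hv0 : 0 ≤ vK K f := by
    rw [vK_eq]
    exact Finset.sum_nonneg fun a _ => ipF_self_nonneg _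
  have hs0 : 0 ≤ ∑ a, sgm (φ a) := Finset.sum_nonneg fun a _ => by
    unfold sgm sgF
    exact integral_nonneg fun ξ => by positivity
  have hexp : |Real.exp (-(vK K f / 2)) - Real.exp (-((∑ a, sgm (φ a)) / 2))| ≤ δ / 4 := by
    refine (exp_lip _ _ (by positivity) (by positivity)).trans ?_
    rw [← sub_div, abs_div, abs_two]
    linarith
  -- translation
  have hYF : ∀ t : ℝ → ℝ, EX μ L (b ^ 4) (fun U : Ed d (2 * m) → G =>
      t (b ^ 2 * YF L r φ o P (lf U))) = EX μ L (b ^ 4) (fun U : Ed d (2 * m) → G =>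
        t (b ^ 2 * Fh L f (fun z => hol (lf U) (o + w) (P (pt c z))) U)) := by
    intro t
    rw [EX_transl μ c (b ^ 4) (fun V : Ez d → G => t (b ^ 2 * YF L r φ o P V))]
    congr 1
    funext U
    rw [YF_Fh hgeo1 hbox, hf, hw]
  rw [hYF, hYF]
  constructor
  · calc _ ≤ |EX μ L (b ^ 4) (fun U : Ed d (2 * m) → G =>
          Real.cos (b ^ 2 * Fh L f (fun z => hol (lf U) (o + w) (P (pt c z))) U)) -
            Real.exp (-(vK K f / 2))| +
          |Real.exp (-(vK K f / 2)) - Real.exp (-((∑ a, sgm (φ a)) / 2))| := abs_sub_le _ _ _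
      _ ≤ δ / 2 + δ / 4 := add_le_add (key.1.trans t3) hexp
      _ ≤ δ := by linarith
  · exact (key.2.trans t3).trans (by linarith)

end

end Pool.Agent.W2helper11.MX
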